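import Pool.Agent.R775.HS.Ener

/-!
# Energies with real exponents and the null image lemma (helper498)
-/

set_option autoImplicit false
set_option linter.unusedSectionVars false

open MeasureTheory Set Metric Filter Topology
open scoped ENNReal NNReal

namespace Pool.Agent.U498.HSF

open Pool.Agent.Y485.HS Pool.Agent.Y489.SP Pool.Agent.R775.HS

/-- the sum of the powers of exponent `q` of the distances of the images of pairs of points of `Q`
in balls of radius `r` with `r`-separated centres in `Q` is at most `b` -/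
def EnR {n : ℕ} {V : Type} [PseudoMetricSpace V] (q : ℝ) (Q : Set (E n)) (r b : ℝ)
    (f : E n → V) : Prop :=
  ∀ (A : Finset (E n)) (x y : E n → E n),
    (∀ a ∈ A, a ∈ Q ∧ x a ∈ Q ∧ y a ∈ Q ∧ dist (x a) a ≤ r ∧ dist (y a) a ≤ r) →
    (∀ a ∈ A, ∀ a' ∈ A, a ≠ a' → r ≤ dist a a') →
    ∑ a ∈ A, dist (f (x a)) (f (y a)) ^ q ≤ b

section
variable {n : ℕ} {V : Type} [PseudoMetricSpace V]

theorem enR_mono {q : ℝ} {Q Q' : Set (E n)} {r b b' : ℝ} {f : E n → V} (hQ : Q ⊆ Q')
    (hb : b' ≤ b) (h : EnR q Q' r b' f) : EnR q Q r b f := by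
  intro A x y h1 h2
  refine (h A x y (fun a ha => ?_) h2).trans hb
  obtain ⟨q1, q2, q3, q4⟩ := h1 a ha
  exact ⟨hQ q1, hQ q2, hQ q3, q4⟩

theorem enR_nonneg {q : ℝ} {Q : Set (E n)} {r b : ℝ} {f : E n → V} (h : EnR q Q r b f) :
    0 ≤ b := by
  have := h ∅ id id (by simp) (by simp)
  simpa using this

theorem enR_nat {Q : Set (E n)} {r b : ℝ} {f : E n → E n} :
    EnR (n : ℝ) Q r b f ↔ Ener Q r b f := by
  unfold EnR Ener
  simp only [Real.rpow_natCast]

/-- energies are monotone under domination of the distances -/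
theorem enR_dom {W : Type} [PseudoMetricSpace W] {q : ℝ} (hq : 0 ≤ q) {Q : Set (E n)} {r b : ℝ}
    {f : E n → V} {g : E n → W} {C : ℝ} (hC : 0 ≤ C)
    (hfg : ∀ x ∈ Q, ∀ y ∈ Q, dist (g x) (g y) ≤ C * dist (f x) (f y)) (h : EnR q Q r b f) :
    EnR q Q r (C ^ q * b) g := by
  intro A x y h1 h2
  calc ∑ a ∈ A, dist (g (x a)) (g (y a)) ^ q
      ≤ ∑ a ∈ A, C ^ q * dist (f (x a)) (f (y a)) ^ q := by
        refine Finset.sum_le_sum fun a ha => ?_
        obtain ⟨-, g2, g3, -⟩ := h1 a ha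
        rw [← Real.mul_rpow hC dist_nonneg]
        exact Real.rpow_le_rpow dist_nonneg (hfg _ g2 _ g3) hq
    _ = C ^ q * ∑ a ∈ A, dist (f (x a)) (f (y a)) ^ q := by rw [Finset.mul_sum]
    _ ≤ C ^ q * b := mul_le_mul_of_nonneg_left (h A x y h1 h2) (Real.rpow_nonneg hC q)

/-- energies of a function whose distances are bounded by a sum -/
theorem enR_add {V1 V2 : Type} [PseudoMetricSpace V1] [PseudoMetricSpace V2] {q : ℝ} (hq : 0 ≤ q)
    {Q : Set (E n)} {r b1 b2 : ℝ} {f : E n → V} {f1 : E n → V1} {f2 : E n → V2}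
    (hf : ∀ x ∈ Q, ∀ y ∈ Q, dist (f x) (f y) ≤ dist (f1 x) (f1 y) + dist (f2 x) (f2 y))
    (h1 : EnR q Q r b1 f1) (h2 : EnR q Q r b2 f2) : EnR q Q r (2 ^ q * (b1 + b2)) f := by
  intro A x y k1 k2
  have key : ∀ s t : ℝ, 0 ≤ s → 0 ≤ t → (s + t) ^ q ≤ 2 ^ q * (s ^ q + t ^ q) := by
    intro s t hs ht
    have h3 : s + t ≤ 2 * max s t := by
      have := le_max_left s t
      have := le_max_right s t
      linarith
    calc (s + t) ^ q ≤ (2 * max s t) ^ q := Real.rpow_le_rpow (by positivity) h3 hq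
      _ = 2 ^ q * (max s t) ^ q := Real.mul_rpow (by norm_num) (le_max_of_le_left hs)
      _ ≤ 2 ^ q * (s ^ q + t ^ q) := by
          have hs' := Real.rpow_nonneg hs q
          have ht' := Real.rpow_nonneg ht q
          refine mul_le_mul_of_nonneg_left ?_ (by positivity)
          rcases max_choice s t with h | h <;> rw [h] <;> linarith
  calc ∑ a ∈ A, dist (f (x a)) (f (y a)) ^ q
      ≤ ∑ a ∈ A, 2 ^ q * (dist (f1 (x a)) (f1 (y a)) ^ q + dist (f2 (x a)) (f2 (y a)) ^ q) := by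
        refine Finset.sum_le_sum fun a ha => ?_
        obtain ⟨-, g2, g3, -⟩ := k1 a ha
        exact (Real.rpow_le_rpow dist_nonneg (hf _ g2 _ g3) hq).trans
          (key _ _ dist_nonneg dist_nonneg)
    _ = 2 ^ q * (∑ a ∈ A, dist (f1 (x a)) (f1 (y a)) ^ q +
          ∑ a ∈ A, dist (f2 (x a)) (f2 (y a)) ^ q) := by
        rw [← Finset.mul_sum, Finset.sum_add_distrib]
    _ ≤ 2 ^ q * (b1 + b2) :=
        mul_le_mul_of_nonneg_left (add_le_add (h1 A x y k1 k2) (h2 A x y k1 k2)) (by positivity)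

/-- the energies of exponent `q` tend to zero along the scales `r` -/
def Fine (q : ℝ) (Q : Set (E n)) (r : ℕ → ℝ) (f : E n → V) : Prop :=
  ∃ b : ℕ → ℝ, Tendsto b atTop (𝓝 0) ∧ ∀ j, EnR q Q (r j) (b j) f

theorem fine_mono {q : ℝ} {Q Q' : Set (E n)} {r : ℕ → ℝ} {f : E n → V} (hQ : Q ⊆ Q')
    (h : Fine q Q' r f) : Fine q Q r f := by
  obtain ⟨b, hb, h⟩ := h
  exact ⟨b, hb, fun j => enR_mono hQ le_rfl (h j)⟩

theorem fine_dom {W : Type} [PseudoMetricSpace W] {q : ℝ} (hq : 0 ≤ q) {Q : Set (E n)}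
    {r : ℕ → ℝ} {f : E n → V} {g : E n → W} {C : ℝ} (hC : 0 ≤ C)
    (hfg : ∀ x ∈ Q, ∀ y ∈ Q, dist (g x) (g y) ≤ C * dist (f x) (f y)) (h : Fine q Q r f) :
    Fine q Q r g := by
  obtain ⟨b, hb, h⟩ := h
  refine ⟨fun j => C ^ q * b j, ?_, fun j => enR_dom hq hC hfg (h j)⟩
  have := hb.const_mul (C ^ q)
  rwa [mul_zero] at this

theorem fine_add {V1 V2 : Type} [PseudoMetricSpace V1] [PseudoMetricSpace V2] {q : ℝ} (hq : 0 ≤ q)
    {Q : Set (E n)} {r : ℕ → ℝ} {f : E n → V} {f1 : E n → V1} {f2 : E n → V2}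
    (hf : ∀ x ∈ Q, ∀ y ∈ Q, dist (f x) (f y) ≤ dist (f1 x) (f1 y) + dist (f2 x) (f2 y))
    (h1 : Fine q Q r f1) (h2 : Fine q Q r f2) : Fine q Q r f := by
  obtain ⟨b1, hb1, h1⟩ := h1
  obtain ⟨b2, hb2, h2⟩ := h2
  refine ⟨fun j => 2 ^ q * (b1 j + b2 j), ?_, fun j => enR_add hq hf (h1 j) (h2 j)⟩
  have := (hb1.add hb2).const_mul (2 ^ q)
  rwa [add_zero, mul_zero] at this

end

/-- The image of a compact set under a map into a space of dimension `d` is a null set if the
energies of exponent `d` tend to zero. -/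
theorem null_image {n : ℕ} {W : Type} [NormedAddCommGroup W] [NormedSpace ℝ W]
    [FiniteDimensional ℝ W] [MeasurableSpace W] [BorelSpace W] (μ : Measure W)
    [μ.IsAddHaarMeasure] {Q : Set (E n)} (hQ : IsCompact Q) {f : E n → W}
    (hf : ContinuousOn f Q) {r : ℕ → ℝ} (hr : ∀ j, 0 < r j)
    (hE : Fine (Module.finrank ℝ W : ℝ) Q r f) : μ (f '' Q) = 0 := by
  classical
  obtain ⟨b, hb, hE⟩ := hE
  choose A hA1 hA2 hA3 using fun j : ℕ => net' hQ (hr j)
  have hmax : ∀ j, ∀ a ∈ Q, ∃ z ∈ closedBall a (r j) ∩ Q, ∀ z' ∈ closedBall a (r j) ∩ Q,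
      dist (f z') (f a) ≤ dist (f z) (f a) := by
    intro j a ha
    have hc : IsCompact (closedBall a (r j) ∩ Q) := hQ.inter_left isClosed_closedBall
    have hcont : ContinuousOn (fun z => dist (f z) (f a)) (closedBall a (r j) ∩ Q) :=
      continuous_dist.comp_continuousOn ((hf.mono inter_subset_right).prodMk continuousOn_const)
    obtain ⟨z, hz, hzm⟩ := hc.exists_isMaxOn ⟨a, mem_closedBall_self (hr j).le, ha⟩ hcont
    exact ⟨z, hz, fun z' hz' => hzm hz'⟩
  choose! z hz1 hz2 using hmax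
  have hle : ∀ j, μ (f '' Q) ≤ ENNReal.ofReal (b j) * μ (ball 0 1) := by
    intro j
    have h1 : f '' Q ⊆ ⋃ a ∈ A j, closedBall (f a) (dist (f (z j a)) (f a)) := by
      rintro _ ⟨x, hx, rfl⟩
      obtain ⟨a, ha, hxa⟩ := hA3 j x hx
      exact mem_biUnion ha (hz2 j a (hA1 j a ha) x ⟨hxa, hx⟩)
    calc μ (f '' Q) ≤ μ (⋃ a ∈ A j, closedBall (f a) (dist (f (z j a)) (f a))) :=
          measure_mono h1
      _ ≤ ∑ a ∈ A j, μ (closedBall (f a) (dist (f (z j a)) (f a))) :=
          measure_biUnion_finset_le _ _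
      _ = ∑ a ∈ A j, ENNReal.ofReal (dist (f (z j a)) (f a) ^ (Module.finrank ℝ W : ℝ)) *
            μ (ball 0 1) := by
          refine Finset.sum_congr rfl fun a _ => ?_
          rw [Measure.addHaar_closedBall μ _ dist_nonneg, Real.rpow_natCast]
      _ = ENNReal.ofReal (∑ a ∈ A j, dist (f (z j a)) (f a) ^ (Module.finrank ℝ W : ℝ)) *
            μ (ball 0 1) := by
          rw [← Finset.sum_mul, ENNReal.ofReal_sum_of_nonneg
            (fun a _ => Real.rpow_nonneg dist_nonneg _)]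
      _ ≤ ENNReal.ofReal (b j) * μ (ball 0 1) := by
          gcongr
          refine hE j (A j) (z j) id (fun a ha => ?_) (hA2 j)
          have haQ := hA1 j a ha
          obtain ⟨k1, k2⟩ := hz1 j a haQ
          exact ⟨haQ, k2, haQ, k1, by simp [(hr j).le]⟩
  have hlim : Tendsto (fun j => ENNReal.ofReal (b j) * μ (ball (0 : W) 1)) atTop (𝓝 0) := by
    have h1 : Tendsto (fun j => ENNReal.ofReal (b j)) atTop (𝓝 0) := by
      have := ENNReal.tendsto_ofReal hb
      rwa [ENNReal.ofReal_zero] at this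
    have h2 := ENNReal.Tendsto.mul_const (b := μ (ball (0 : W) 1)) h1
      (Or.inr measure_ball_lt_top.ne)
    rwa [zero_mul] at h2
  exact le_antisymm (ge_of_tendsto' hlim hle) bot_le

/-- The choice of a coefficient: for some `t` the function `u + t v` has no zero in the fibres over
almost all values, outside the zeros of `v`. -/
theorem pick {n : ℕ} {Q : Set (E n)} (hQ : IsCompact Q) {f : E n → E n} {u v : E n → ℂ}
    (hf : ContinuousOn f Q) (hu : ContinuousOn u Q) (hv : ContinuousOn v Q) {r : ℕ → ℝ}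
    (hr : ∀ j, 0 < r j) (h1 : Fine ((n : ℝ) + 2) Q r f) (h2 : Fine ((n : ℝ) + 2) Q r u)
    (h3 : Fine ((n : ℝ) + 2) Q r v) :
    ∃ t : ℂ, ∀ᵐ y : E n, ∀ x ∈ Q, f x = y → v x ≠ 0 → u x + t * v x ≠ 0 := by
  have hn2 : (0 : ℝ) ≤ (n : ℝ) + 2 := by positivity
  obtain ⟨M, hM0, hM⟩ : ∃ M : ℝ, 0 ≤ M ∧ ∀ x ∈ Q, ‖u x‖ ≤ M ∧ ‖v x‖ ≤ M := by
    obtain ⟨M1, hM1⟩ := hQ.exists_bound_of_continuousOn hu
    obtain ⟨M2, hM2⟩ := hQ.exists_bound_of_continuousOn hv
    refine ⟨max 0 (max M1 M2), le_max_left _ _, fun x hx => ⟨?_, ?_⟩⟩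
    · exact (hM1 x hx).trans ((le_max_left _ _).trans (le_max_right _ _))
    · exact (hM2 x hx).trans ((le_max_right _ _).trans (le_max_right _ _))
  have hfin : Module.finrank ℝ (ℂ × E n) = n + 2 := by
    rw [Module.finrank_prod, Complex.finrank_real_complex, finrank_euclideanSpace_fin]
    ring
  let P : ℕ → Set (E n) := fun k => {x | x ∈ Q ∧ 1 / ((k : ℝ) + 1) ≤ ‖v x‖}
  have hPc : ∀ k, IsCompact (P k) := by
    intro k
    have h4 : P k = Q ∩ (fun x => ‖v x‖) ⁻¹' Ici (1 / ((k : ℝ) + 1)) := by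
      ext x
      simp [P]
    rw [h4]
    exact hQ.of_isClosed_subset (hv.norm.preimage_isClosed_of_isClosed hQ.isClosed isClosed_Ici)
      inter_subset_left
  have hPQ : ∀ k, P k ⊆ Q := fun k x hx => hx.1
  have hPv : ∀ k, ∀ x ∈ P k, v x ≠ 0 := by
    intro k x hx h0
    have h4 := hx.2
    rw [h0, norm_zero] at h4
    have : (0 : ℝ) < 1 / ((k : ℝ) + 1) := by positivity
    linarith
  have hnull : ∀ k, ((volume : Measure ℂ).prod (volume : Measure (E n)))
      ((fun x => (-(u x / v x), f x)) '' P k) = 0 := by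
    intro k
    refine null_image _ (hPc k) ?_ hr ?_
    · exact (((hu.mono (hPQ k)).div (hv.mono (hPQ k)) (hPv k)).neg).prodMk (hf.mono (hPQ k))
    · rw [hfin]
      push_cast
      -- the quotient
      have hw : Fine ((n : ℝ) + 2) (P k) r (fun x => -(u x / v x)) := by
        set C : ℝ := ((k : ℝ) + 1) ^ 2 * M with hC
        have hC0 : 0 ≤ C := by positivity
        have e1 : Fine ((n : ℝ) + 2) (P k) r (fun x => (C : ℂ) * u x) :=
          fine_dom hn2 hC0 (fun x _ y _ => by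
            rw [dist_eq_norm, ← mul_sub, norm_mul, Complex.norm_real, Real.norm_of_nonneg hC0,
              ← dist_eq_norm]) (fine_mono (hPQ k) h2)
        have e2 : Fine ((n : ℝ) + 2) (P k) r (fun x => (C : ℂ) * v x) :=
          fine_dom hn2 hC0 (fun x _ y _ => by
            rw [dist_eq_norm, ← mul_sub, norm_mul, Complex.norm_real, Real.norm_of_nonneg hC0,
              ← dist_eq_norm]) (fine_mono (hPQ k) h3)
        refine fine_add hn2 ?_ e1 e2
        intro x hx y hy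
        have hx0 := hPv k x hx
        have hy0 := hPv k y hy
        have hk : (0 : ℝ) < (k : ℝ) + 1 := by positivity
        have hxn : (‖v x‖)⁻¹ ≤ (k : ℝ) + 1 := by
          have := hx.2
          rw [one_div] at this
          exact inv_le_of_inv_le₀ hk this
        have hyn : (‖v y‖)⁻¹ ≤ (k : ℝ) + 1 := by
          have := hy.2
          rw [one_div] at this
          exact inv_le_of_inv_le₀ hk this
        have e3 : -(u x / v x) - -(u y / v y) =
            (v x)⁻¹ * (v y)⁻¹ * (u y * (v x - v y) + v y * (u y - u x)) := by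
          field_simp
          ring
        rw [dist_eq_norm, e3, norm_mul, norm_mul, norm_inv, norm_inv]
        have e5 : ∀ z w : ℂ, dist ((C : ℂ) * z) ((C : ℂ) * w) = C * ‖z - w‖ := fun z w => by
          rw [dist_eq_norm, ← mul_sub, norm_mul, Complex.norm_real, Real.norm_of_nonneg hC0]
        rw [e5, e5]
        have e4 : ‖u y * (v x - v y) + v y * (u y - u x)‖ ≤
            M * ‖v x - v y‖ + M * ‖u x - u y‖ := by
          refine (norm_add_le _ _).trans ?_
          rw [norm_mul, norm_mul, norm_sub_rev (u y) (u x)]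
          have h4 := (hM y (hPQ k hy)).1
          have h5 := (hM y (hPQ k hy)).2
          gcongr
        calc ‖v x‖⁻¹ * ‖v y‖⁻¹ * ‖u y * (v x - v y) + v y * (u y - u x)‖
            ≤ ((k : ℝ) + 1) * ((k : ℝ) + 1) * (M * ‖v x - v y‖ + M * ‖u x - u y‖) := by
              gcongr
          _ = C * ‖u x - u y‖ + C * ‖v x - v y‖ := by
              rw [hC]
              ring
      refine fine_add hn2 ?_ hw (fine_mono (hPQ k) h1)
      intro x _ y _
      rw [Prod.dist_eq]
      exact max_le (le_add_of_nonneg_right dist_nonneg) (le_add_of_nonneg_left dist_nonneg)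
  have hae : ∀ᵐ z ∂((volume : Measure ℂ).prod (volume : Measure (E n))),
      ∀ k, z ∉ (fun x => (-(u x / v x), f x)) '' P k := by
    rw [ae_all_iff]
    intro k
    exact measure_eq_zero_iff_ae_notMem.1 (hnull k)
  have hae2 : ∀ᵐ t : ℂ, ∀ᵐ y : E n, ∀ k, (t, y) ∉ (fun x => (-(u x / v x), f x)) '' P k :=
    Measure.ae_ae_of_ae_prod hae
  obtain ⟨t, ht⟩ := hae2.exists
  refine ⟨t, ?_⟩
  filter_upwards [ht] with y hy x hx hfx hvx h0
  obtain ⟨k, hk⟩ := exists_nat_one_div_lt (norm_pos_iff.2 hvx)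
  apply hy k
  refine ⟨x, ⟨hx, hk.le⟩, ?_⟩
  rw [Prod.mk.injEq]
  refine ⟨?_, hfx⟩
  rw [neg_eq_iff_eq_neg, div_eq_iff hvx]
  linear_combination h0

/-- a sequence of linear combinations -/
theorem pick_seq {n : ℕ} {Q : Set (E n)} (hQ : IsCompact Q) {f : E n → E n} {w : ℕ → E n → ℂ}
    (hf : ContinuousOn f Q) (hw : ∀ i, ContinuousOn (w i) Q) {r : ℕ → ℝ}
    (hr : ∀ j, 0 < r j) (h1 : Fine ((n : ℝ) + 2) Q r f)
    (h2 : ∀ i, Fine ((n : ℝ) + 2) Q r (w i)) :
    ∃ t : ℕ → ℂ, ∀ᵐ y : E n, ∀ m : ℕ, ∀ x ∈ Q, f x = y → (∃ i < m, w i x ≠ 0) →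
      ∑ i ∈ Finset.range m, t i * w i x ≠ 0 := by
  have hn2 : (0 : ℝ) ≤ (n : ℝ) + 2 := by positivity
  -- the functions already constructed
  let Good : (E n → ℂ) → Prop := fun u => ContinuousOn u Q ∧ Fine ((n : ℝ) + 2) Q r u
  have hstep : ∀ (m : ℕ) (u : {u // Good u}), ∃ t : ℂ, ∀ᵐ y : E n, ∀ x ∈ Q, f x = y →
      w m x ≠ 0 → u.1 x + t * w m x ≠ 0 := fun m u =>
    pick hQ hf u.2.1 (hw m) hr h1 u.2.2 (h2 m)
  choose T hT using hstep
  have hgood : ∀ (m : ℕ) (u : {u // Good u}), Good (fun x => u.1 x + T m u * w m x) := by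
    intro m u
    refine ⟨u.2.1.add (continuousOn_const.mul (hw m)), ?_⟩
    have e1 : Fine ((n : ℝ) + 2) Q r (fun x => T m u * w m x) :=
      fine_dom hn2 (norm_nonneg (T m u)) (fun x _ y _ => by
        rw [dist_eq_norm, ← mul_sub, norm_mul, ← dist_eq_norm]) (h2 m)
    refine fine_add hn2 (fun x _ y _ => ?_) u.2.2 e1
    exact dist_add_add_le _ _ _ _
  let z0 : {u // Good u} := ⟨fun _ => 0, continuousOn_const,
    ⟨fun _ => 0, tendsto_const_nhds, fun j A x y _ _ => by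
      have h0 : ((n : ℝ) + 2) ≠ 0 := by positivity
      simp [Real.zero_rpow h0]⟩⟩
  let U : ℕ → {u // Good u} := fun m => Nat.rec z0
    (fun m u => ⟨fun x => u.1 x + T m u * w m x, hgood m u⟩) m
  have hU0 : (U 0).1 = fun _ => 0 := rfl
  have hUs : ∀ m, (U (m + 1)).1 = fun x => (U m).1 x + T m (U m) * w m x := fun m => rfl
  refine ⟨fun m => T m (U m), ?_⟩
  have hsum : ∀ m x, ∑ i ∈ Finset.range m, T i (U i) * w i x = (U m).1 x := by
    intro m x
    induction m with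
    | zero => rw [Finset.sum_range_zero, hU0]
    | succ m ih => rw [Finset.sum_range_succ, ih, hUs]
  have hae : ∀ᵐ y : E n, ∀ m, ∀ x ∈ Q, f x = y → w m x ≠ 0 →
      (U m).1 x + T m (U m) * w m x ≠ 0 := by
    rw [ae_all_iff]
    intro m
    exact hT m (U m)
  filter_upwards [hae] with y hy m
  induction m with
  | zero =>
    rintro x _ _ ⟨i, hi, -⟩
    omega
  | succ m ih =>
    rintro x hx hfx ⟨i, hi, hwi⟩
    rw [hsum, hUs]
    by_cases h0 : w m x = 0
    · have him : i < m := by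
        rcases Nat.lt_or_ge i m with h | h
        · exact h
        · have : i = m := by omega
          rw [this] at hwi
          exact absurd h0 hwi
      have h3 := ih x hx hfx ⟨i, him, hwi⟩
      rw [hsum] at h3
      simpa [h0] using h3
    · exact hy m x hx hfx h0

end Pool.Agent.U498.HSF
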