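import Pool.Agent.N512.CC.D5
import Pool.Agent.U498.HSF.Null

/-!
# The averaging operators with energy estimates (helper498)

Adaptation of `Pool/Agent/N512/CC/D1.lean`.
-/

set_option autoImplicit false
set_option linter.unusedSectionVars false

open MeasureTheory Set Metric Filter Topology TopologicalSpace
open scoped ENNReal NNReal

namespace Pool.Agent.U498.HSF

open Pool.Agent.Y485.HS Pool.Agent.Y489.SP Pool.Agent.Y475.HS Pool.Agent.R775.HS
  Pool.Agent.R775.HC Pool.Agent.N512.HS Pool.Agent.N512.CC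

/-- averages have small energies -/
theorem enR_avg {n : ℕ} {V : Type} [NormedAddCommGroup V] [NormedSpace ℝ V]
    [SecondCountableTopology V] [MeasurableSpace V] [BorelSpace V]
    {q : ℝ} (hq : 1 ≤ q) {Q : Set (E n)} {r b : ℝ} {Ω : Type} [TopologicalSpace Ω]
    [CompactSpace Ω] [MeasurableSpace Ω] [BorelSpace Ω] (μ : Measure Ω) [IsProbabilityMeasure μ]
    (S : Ω → E n → V) (hS : ∀ u ∈ Q, Continuous (fun ω => S ω u))
    (hE : ∀ ω, EnR q Q r b (S ω)) : EnR q Q r b (fun u => ∫ ω, S ω u ∂μ) := by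
  have hq0 : 0 ≤ q := by linarith
  intro A x y h1 h2
  have hci : ∀ f : Ω → ℝ, Continuous f → Integrable f μ := fun f hf =>
    hf.integrable_of_hasCompactSupport (HasCompactSupport.of_compactSpace _)
  have hcE : ∀ f : Ω → V, Continuous f → Integrable f μ := fun f hf =>
    hf.integrable_of_hasCompactSupport (HasCompactSupport.of_compactSpace _)
  have hdc : ∀ a ∈ A, Continuous (fun ω => dist (S ω (x a)) (S ω (y a))) := fun a ha =>
    (hS _ (h1 a ha).2.1).dist (hS _ (h1 a ha).2.2.1)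
  have hdq : ∀ a ∈ A, Continuous (fun ω => dist (S ω (x a)) (S ω (y a)) ^ q) := fun a ha =>
    (hdc a ha).rpow_const fun _ => Or.inr hq0
  have hterm : ∀ a ∈ A, dist (∫ ω, S ω (x a) ∂μ) (∫ ω, S ω (y a) ∂μ) ^ q ≤
      ∫ ω, dist (S ω (x a)) (S ω (y a)) ^ q ∂μ := by
    intro a ha
    have e1 : dist (∫ ω, S ω (x a) ∂μ) (∫ ω, S ω (y a) ∂μ) ≤
        ∫ ω, dist (S ω (x a)) (S ω (y a)) ∂μ := by
      rw [dist_eq_norm, ← integral_sub (hcE _ (hS _ (h1 a ha).2.1)) (hcE _ (hS _ (h1 a ha).2.2.1))]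
      refine (norm_integral_le_integral_norm _).trans (le_of_eq ?_)
      simp only [dist_eq_norm]
    have e2 := (convexOn_rpow hq).map_integral_le (μ := μ)
      (f := fun ω => dist (S ω (x a)) (S ω (y a)))
      (Real.continuous_rpow_const hq0).continuousOn isClosed_Ici
      (Eventually.of_forall fun ω => dist_nonneg) (hci _ (hdc a ha))
      (hci _ (hdq a ha))
    exact (Real.rpow_le_rpow dist_nonneg e1 hq0).trans e2
  calc ∑ a ∈ A, dist (∫ ω, S ω (x a) ∂μ) (∫ ω, S ω (y a) ∂μ) ^ q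
      ≤ ∑ a ∈ A, ∫ ω, dist (S ω (x a)) (S ω (y a)) ^ q ∂μ := Finset.sum_le_sum hterm
    _ = ∫ ω, ∑ a ∈ A, dist (S ω (x a)) (S ω (y a)) ^ q ∂μ := by
        rw [integral_finsetSum]
        intro a ha
        exact hci _ (hdq a ha)
    _ ≤ ∫ _ω, b ∂μ := by
        refine integral_mono (hci _ (continuous_finsetSum _ fun a ha => hdq a ha))
          (integrable_const _) fun ω => ?_
        exact hE ω A x y h1 h2
    _ = b := by simp

/-- means have small energies -/
theorem enR_mean {n p : ℕ} {q : ℝ} (hq : 1 ≤ q) (hp : 0 < p) {Q : Set (E n)} {r b : ℝ}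
    {c : ℕ → ℂ} (hc : ∀ i, ‖c i‖ = 1) {f : ℕ → E n → ℂ} (hE : ∀ i, EnR q Q r b (f i)) :
    EnR q Q r b (fun u => (p : ℂ)⁻¹ * ∑ i ∈ Finset.range p, c i * f i u) := by
  have hq0 : 0 ≤ q := by linarith
  have hpR : (0 : ℝ) < p := by exact_mod_cast hp
  intro A x y h1 h2
  have hterm : ∀ a, dist ((p : ℂ)⁻¹ * ∑ i ∈ Finset.range p, c i * f i (x a))
      ((p : ℂ)⁻¹ * ∑ i ∈ Finset.range p, c i * f i (y a)) ^ q ≤
      ∑ i ∈ Finset.range p, (p : ℝ)⁻¹ * dist (f i (x a)) (f i (y a)) ^ q := by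
    intro a
    have e1 : dist ((p : ℂ)⁻¹ * ∑ i ∈ Finset.range p, c i * f i (x a))
        ((p : ℂ)⁻¹ * ∑ i ∈ Finset.range p, c i * f i (y a)) ≤
        ∑ i ∈ Finset.range p, (p : ℝ)⁻¹ * dist (f i (x a)) (f i (y a)) := by
      rw [dist_eq_norm, ← mul_sub, ← Finset.sum_sub_distrib, norm_mul, norm_inv,
        Complex.norm_natCast, ← Finset.mul_sum]
      refine mul_le_mul_of_nonneg_left ?_ (by positivity)
      refine (norm_sum_le _ _).trans (le_of_eq ?_)
      refine Finset.sum_congr rfl fun i _ => ?_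
      rw [← mul_sub, norm_mul, hc, one_mul, ← dist_eq_norm]
    refine (Real.rpow_le_rpow dist_nonneg e1 hq0).trans ?_
    refine Real.rpow_arith_mean_le_arith_mean_rpow _ _ _ (fun i _ => by positivity) ?_
      (fun i _ => dist_nonneg) hq
    rw [Finset.sum_const, Finset.card_range, nsmul_eq_mul, mul_inv_cancel₀ hpR.ne']
  calc ∑ a ∈ A, dist ((p : ℂ)⁻¹ * ∑ i ∈ Finset.range p, c i * f i (x a))
          ((p : ℂ)⁻¹ * ∑ i ∈ Finset.range p, c i * f i (y a)) ^ q
      ≤ ∑ a ∈ A, ∑ i ∈ Finset.range p, (p : ℝ)⁻¹ * dist (f i (x a)) (f i (y a)) ^ q :=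
        Finset.sum_le_sum fun a _ => hterm a
    _ = ∑ i ∈ Finset.range p, (p : ℝ)⁻¹ * ∑ a ∈ A, dist (f i (x a)) (f i (y a)) ^ q := by
        rw [Finset.sum_comm]
        simp_rw [Finset.mul_sum]
    _ ≤ ∑ i ∈ Finset.range p, (p : ℝ)⁻¹ * b := by
        refine Finset.sum_le_sum fun i _ => ?_
        exact mul_le_mul_of_nonneg_left (hE i A x y h1 h2) (by positivity)
    _ = b := by
        rw [Finset.sum_const, Finset.card_range, nsmul_eq_mul, mul_inv_cancel_left₀ hpR.ne']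

/-- the averaging operator -/
theorem exists_avgE {n : ℕ} {X : Type} [TopologicalSpace X] [T2Space X] {H : Type} [Group H]
    [TopologicalSpace H] [IsTopologicalGroup H] [T2Space H] [MulAction H X] [ContinuousSMul H X]
    {φ : OpenPartialHomeomorph X (E n)} {g : H}
    (hcomp : IsCompact ((Subgroup.zpowers g).topologicalClosure : Set H))
    (hs : Small φ ((Subgroup.zpowers g).topologicalClosure : Set H)) :
    ∃ A : C(E n, E n) → E n → E n,
      (∀ ψ, ContinuousOn (A ψ) (closedBall 0 4)) ∧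
      (∀ ψ, ∀ v ∈ closedBall (0 : E n) 3, A ψ (φ (g • φ.symm v)) = A ψ v) ∧
      (∀ ψ ψ', ∀ v ∈ closedBall (0 : E n) 4, A (ψ + ψ') v = A ψ v + A ψ' v) ∧
      (∀ ψ (c : ℝ), ∀ v ∈ closedBall (0 : E n) 4,
        (∀ k ∈ (Subgroup.zpowers g).topologicalClosure, ‖ψ (φ (k • φ.symm v))‖ ≤ c) →
          ‖A ψ v‖ ≤ c) ∧
      (∀ ψ (a : E n), ∀ v ∈ closedBall (0 : E n) 4,
        (∀ k ∈ (Subgroup.zpowers g).topologicalClosure, ψ (φ (k • φ.symm v)) = a) →
          A ψ v = a) ∧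
      (∀ v ∈ closedBall (0 : E n) 4, dist (A (ContinuousMap.id _) v) v < 1 / 4) ∧
      ∀ (q : ℝ), 1 ≤ q → ∀ (Q : Set (E n)) (σ : E n → E n) (r b : ℝ),
        (∀ u ∈ Q, σ u ∈ closedBall (0 : E n) 4) →
        (∀ k ∈ (Subgroup.zpowers g).topologicalClosure,
          EnR q Q r b (fun u => φ (k • φ.symm (σ u)))) →
        EnR q Q r b (fun u => A (ContinuousMap.id _) (σ u)) := by
  set K : Subgroup H := (Subgroup.zpowers g).topologicalClosure with hKdef
  have hT := locAct_of_small K hs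
  set T : K → E n → E n := fun h v => φ ((h : H) • φ.symm v) with hTdef
  have hgmem : g ∈ K := Subgroup.le_topologicalClosure _ (Subgroup.mem_zpowers g)
  have hKcomp : CompactSpace K := isCompact_iff_compactSpace.1 hcomp
  let _ : MeasurableSpace K := borel K
  have _ : BorelSpace K := ⟨rfl⟩
  let μ : Measure K := Measure.haarMeasure ⊤
  have hμ1 : IsProbabilityMeasure μ := ⟨by
    have := Measure.haarMeasure_self (K₀ := (⊤ : TopologicalSpace.PositiveCompacts K))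
    simpa using this⟩
  let S : C(E n, E n) → K → E n → E n := fun ψ k x => ψ (T k⁻¹ x)
  have hScont : ∀ ψ, ContinuousOn (fun q : K × E n => S ψ q.1 q.2) (univ ×ˢ BB n) := by
    intro ψ
    have hc : Continuous (fun q : K × E n => (q.1⁻¹, q.2)) := by fun_prop
    refine ψ.continuous.comp_continuousOn (hT.cont.comp hc.continuousOn ?_)
    rintro ⟨k, x⟩ ⟨-, hx⟩
    exact ⟨mem_univ _, hx⟩
  have hSc1 : ∀ ψ, ∀ x ∈ BB n, Continuous (fun k => S ψ k x) := by
    intro ψ x hx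
    have hc : Continuous (fun k : K => (k, x)) := by fun_prop
    exact (hScont ψ).comp_continuous hc (fun k => ⟨mem_univ _, hx⟩)
  have hSint : ∀ ψ, ∀ x ∈ BB n, Integrable (fun k => S ψ k x) μ := fun ψ x hx =>
    (hSc1 ψ x hx).integrable_of_hasCompactSupport (HasCompactSupport.of_compactSpace _)
  have hinvm : ∀ k : K, ((k⁻¹ : K) : H) ∈ K := fun k => (k⁻¹).2
  refine ⟨fun ψ x => ∫ k, S ψ k x ∂μ, ?_, ?_, ?_, ?_, ?_, ?_, ?_⟩
  · intro ψ
    let Φ : C(K, C(BB n, E n)) := res (S ψ) (hScont ψ)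
    have hint : Integrable (fun ω => Φ ω) μ :=
      Φ.continuous.integrable_of_hasCompactSupport (HasCompactSupport.of_compactSpace _)
    have heval : ∀ x : BB n, ∫ ω, S ψ ω x.1 ∂μ = (∫ ω, Φ ω ∂μ : C(BB n, E n)) x := by
      intro x
      have := (ContinuousMap.evalCLM ℝ x : C(BB n, E n) →L[ℝ] E n).integral_comp_comm hint
      exact this
    show ContinuousOn (fun x => ∫ ω, S ψ ω x ∂μ) (BB n)
    rw [continuousOn_iff_continuous_domRestrict]
    have : (BB n).domRestrict (fun x => ∫ ω, S ψ ω x ∂μ) = (∫ ω, Φ ω ∂μ : C(BB n, E n)) := by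
      ext1 x
      exact heval x
    rw [this]
    exact (∫ ω, Φ ω ∂μ : C(BB n, E n)).continuous
  · intro ψ v hv
    have hvn : ‖v‖ ≤ 3 := by simpa using hv
    have hv4 : v ∈ BB n := closedBall_subset_closedBall (by norm_num) hv
    have h2 := norm_T_le hT ⟨g, hgmem⟩ hv4
    have hgv : T ⟨g, hgmem⟩ v ∈ BB n := mem_BB.2 (by linarith)
    have h1 : ∀ k' : K, S ψ k' (T ⟨g, hgmem⟩ v) = S ψ (⟨g, hgmem⟩⁻¹ * k') v := by
      intro k'
      show ψ (T k'⁻¹ (T ⟨g, hgmem⟩ v)) = ψ (T (⟨g, hgmem⟩⁻¹ * k')⁻¹ v)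
      rw [← hT.mul _ _ v hv4 hgv]
      congr 2
      simp
    show ∫ k', S ψ k' (T ⟨g, hgmem⟩ v) ∂μ = ∫ k', S ψ k' v ∂μ
    simp_rw [h1]
    exact integral_mul_left_eq_self (fun k' => S ψ k' v) (⟨g, hgmem⟩⁻¹ : K)
  · intro ψ ψ' v hv
    exact integral_add (hSint ψ v hv) (hSint ψ' v hv)
  · intro ψ c v hv hc
    have h2 := norm_integral_le_of_norm_le_const (μ := μ) (f := fun k => S ψ k v) (C := c)
      (Eventually.of_forall fun k => hc _ (hinvm k))
    simpa using h2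
  · intro ψ a v hv ha
    have h1 : ∀ k : K, S ψ k v = a := fun k => ha _ (hinvm k)
    show ∫ k, S ψ k v ∂μ = a
    simp_rw [h1]
    simp
  · intro v hv
    have h1 : (∫ k, S (ContinuousMap.id _) k v ∂μ) - v =
        ∫ k, (S (ContinuousMap.id _) k v - v) ∂μ := by
      rw [integral_sub (hSint _ v hv) (integrable_const _)]
      simp
    rw [dist_eq_norm, h1]
    have hc : Continuous (fun k : K => ‖S (ContinuousMap.id _) k v - v‖) :=
      ((hSc1 _ v hv).sub continuous_const).norm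
    have hle : ∀ k : K, ‖S (ContinuousMap.id _) k v - v‖ ≤ 1 / 4 := by
      intro k
      have := hT.disp k⁻¹ v hv
      rwa [dist_eq_norm] at this
    refine lt_of_le_of_lt (norm_integral_le_integral_norm _) ?_
    have hci : ∀ f : K → ℝ, Continuous f → Integrable f μ := fun f hf =>
      hf.integrable_of_hasCompactSupport (HasCompactSupport.of_compactSpace _)
    have hpos : 0 < ∫ k : K, (1 / 4 - ‖S (ContinuousMap.id _) k v - v‖) ∂μ := by
      refine (continuous_const.sub hc).integral_pos_of_hasCompactSupport_nonneg_nonzero (x := 1)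
        (HasCompactSupport.of_compactSpace _) (fun k => sub_nonneg.2 (hle k)) ?_
      have h3 : S (ContinuousMap.id _) (1 : K) v = v := by
        show T (1 : K)⁻¹ v = v
        rw [inv_one]
        exact hT.one v hv
      rw [h3]
      simp
    rw [integral_sub (integrable_const _) (hci _ hc)] at hpos
    simp only [integral_const, probReal_univ, one_smul] at hpos
    linarith
  · intro q hq Q σ r b hσ hE
    exact enR_avg hq μ (fun k u => S (ContinuousMap.id _) k (σ u))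
      (fun u hu => hSc1 _ _ (hσ u hu)) (fun k => hE _ (hinvm k))

/-- the twisted averaging operator -/
theorem exists_twE {n p : ℕ} (hp : 0 < p) {X : Type} [TopologicalSpace X] [T2Space X]
    {H : Type} [Group H]
    [TopologicalSpace H] [IsTopologicalGroup H] [T2Space H] [MulAction H X] [ContinuousSMul H X]
    {φ : OpenPartialHomeomorph X (E n)} {g : H}
    (hcomp : IsCompact ((Subgroup.zpowers g).topologicalClosure : Set H))
    (hs : Small φ ((Subgroup.zpowers g).topologicalClosure : Set H)) :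
    ∃ B : C(E n, ℂ) → E n → ℂ,
      (∀ ψ, ContinuousOn (B ψ) (closedBall 0 4)) ∧
      (∀ ψ, ∀ v ∈ closedBall (0 : E n) 3, B ψ (φ (g • φ.symm v)) =
        Complex.exp (2 * Real.pi * Complex.I / p) * B ψ v) ∧
      (∀ ψ ψ', ∀ v ∈ closedBall (0 : E n) 4, B (ψ + ψ') v = B ψ v + B ψ' v) ∧
      (∀ ψ (c : ℝ), ∀ v ∈ closedBall (0 : E n) 4,
        (∀ k ∈ (Subgroup.zpowers g).topologicalClosure, ‖ψ (φ (k • φ.symm v))‖ ≤ c) →
          ‖B ψ v‖ ≤ c) ∧
      (∀ ψ (a : ℂ), ∀ v ∈ closedBall (0 : E n) 4,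
        (∀ i < p, ∀ q ∈ (Subgroup.zpowers (g ^ p)).topologicalClosure,
          ψ (φ ((g ^ i * q) • φ.symm v)) =
            Complex.exp (2 * Real.pi * Complex.I / p) ^ i * a) → B ψ v = a) ∧
      (∀ ψ, ∀ v ∈ closedBall (0 : E n) 4, (∀ u, ∃ a : ℝ, 0 ≤ a ∧ ψ u = (a : ℂ)) → ψ v ≠ 0 →
        (∀ i, 0 < i → i < p → ∀ q ∈ (Subgroup.zpowers (g ^ p)).topologicalClosure,
          ψ (φ ((g ^ i * q) • φ.symm v)) = 0) → B ψ v ≠ 0) ∧
      ∀ ψ (q : ℝ), 1 ≤ q → ∀ (Q : Set (E n)) (σ : E n → E n) (r b : ℝ),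
        (∀ u ∈ Q, σ u ∈ closedBall (0 : E n) 4) →
        (∀ k ∈ (Subgroup.zpowers g).topologicalClosure,
          EnR q Q r b (fun u => ψ (φ (k • φ.symm (σ u))))) →
        EnR q Q r b (fun u => B ψ (σ u)) := by
  set K : Subgroup H := (Subgroup.zpowers g).topologicalClosure with hKdef
  set K' : Subgroup H := (Subgroup.zpowers (g ^ p)).topologicalClosure with hK'def
  set ζ : ℂ := Complex.exp (2 * Real.pi * Complex.I / p) with hζ
  have hζ1 : ‖ζ‖ = 1 := zt_norm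
  have hζ0 : ζ ≠ 0 := Complex.exp_ne_zero _
  have hζp : ζ ^ p = 1 := by
    rw [hζ, ← Complex.exp_nat_mul]
    have h1 : (p : ℂ) * (2 * Real.pi * Complex.I / p) = 2 * Real.pi * Complex.I := by
      have : (p : ℂ) ≠ 0 := by exact_mod_cast hp.ne'
      field_simp
    rw [h1, Complex.exp_two_pi_mul_I]
  have hT := locAct_of_small K hs
  have hgmem : g ∈ K := Subgroup.le_topologicalClosure _ (Subgroup.mem_zpowers g)
  have hK'K : K' ≤ K := Subgroup.topologicalClosure_minimal _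
    ((Subgroup.zpowers_le).2 (K.pow_mem hgmem p)) (Subgroup.isClosed_topologicalClosure _)
  have hK'c : IsCompact (K' : Set H) :=
    hcomp.of_isClosed_subset (Subgroup.isClosed_topologicalClosure _) hK'K
  have hKcomp : CompactSpace K' := isCompact_iff_compactSpace.1 hK'c
  have ht := hs.1
  have hsm := hs.2
  let _ : MeasurableSpace K' := borel K'
  have _ : BorelSpace K' := ⟨rfl⟩
  let μ : Measure K' := Measure.haarMeasure ⊤
  have hμ1 : IsProbabilityMeasure μ := ⟨by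
    have := Measure.haarMeasure_self (K₀ := (⊤ : TopologicalSpace.PositiveCompacts K'))
    simpa using this⟩
  let S : C(E n, ℂ) → ℕ → K' → E n → ℂ := fun ψ i k x =>
    ψ (φ ((g ^ i * ((k⁻¹ : K') : H)) • φ.symm x))
  have hmem : ∀ (i : ℕ) (k : K'), g ^ i * ((k⁻¹ : K') : H) ∈ K := fun i k =>
    K.mul_mem (K.pow_mem hgmem i) (hK'K (k⁻¹).2)
  have hScont : ∀ ψ i, ContinuousOn (fun q : K' × E n => S ψ i q.1 q.2)
      (univ ×ˢ closedBall 0 4) := by
    intro ψ i
    refine ψ.continuous.comp_continuousOn ?_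
    refine φ.continuousOn.comp ?_ fun q hq => (hsm _ (hmem i q.1) q.2 hq.2).1
    refine ContinuousOn.smul ?_ ?_
    · have hc : Continuous (fun q : K' × E n => g ^ i * ((q.1⁻¹ : K') : H)) := by fun_prop
      exact hc.continuousOn
    · exact φ.continuousOn_symm.comp continuousOn_snd fun q hq => ht hq.2
  have hSc1 : ∀ ψ i, ∀ x ∈ closedBall (0 : E n) 4, Continuous (fun k => S ψ i k x) := by
    intro ψ i x hx
    have hc : Continuous (fun k : K' => (k, x)) := by fun_prop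
    exact (hScont ψ i).comp_continuous hc (fun k => ⟨mem_univ _, hx⟩)
  have hSint : ∀ ψ i, ∀ x ∈ closedBall (0 : E n) 4, Integrable (fun k => S ψ i k x) μ :=
    fun ψ i x hx => (hSc1 ψ i x hx).integrable_of_hasCompactSupport
      (HasCompactSupport.of_compactSpace _)
  let a0 : C(E n, ℂ) → ℕ → E n → ℂ := fun ψ i x => ∫ k, S ψ i k x ∂μ
  have ha0c : ∀ ψ i, ContinuousOn (a0 ψ i) (closedBall 0 4) := by
    intro ψ i
    rw [continuousOn_iff_continuous_domRestrict]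
    have h1 : Continuous (Function.uncurry fun (x : closedBall (0 : E n) 4) (k : K') =>
        S ψ i k x) := by
      have hc : Continuous (fun q : (closedBall (0 : E n) 4) × K' => (q.2, (q.1 : E n))) := by
        fun_prop
      exact (hScont ψ i).comp_continuous hc fun q => ⟨mem_univ _, q.1.2⟩
    have h2 := continuous_parametric_integral_of_continuous (μ := μ) h1 isCompact_univ
    simp only [Measure.restrict_univ] at h2
    exact h2
  -- translation
  have hcomm : ∀ k : K', Commute g ((k⁻¹ : K') : H) := fun k =>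
    comm_closure hgmem (hK'K (k⁻¹).2)
  have ha0g : ∀ ψ i, ∀ v ∈ closedBall (0 : E n) 3, a0 ψ i (φ (g • φ.symm v)) = a0 ψ (i + 1) v := by
    intro ψ i v hv
    have hv4 : v ∈ closedBall (0 : E n) 4 := closedBall_subset_closedBall (by norm_num) hv
    show ∫ k, S ψ i k (φ (g • φ.symm v)) ∂μ = ∫ k, S ψ (i + 1) k v ∂μ
    congr 1
    funext k
    show ψ (φ ((g ^ i * ((k⁻¹ : K') : H)) • φ.symm (φ (g • φ.symm v)))) =
      ψ (φ ((g ^ (i + 1) * ((k⁻¹ : K') : H)) • φ.symm v))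
    rw [φ.left_inv (hsm g hgmem v hv4).1, smul_smul, mul_assoc, ← (hcomm k).eq, ← mul_assoc,
      ← pow_succ]
  have ha0p : ∀ ψ v, a0 ψ p v = a0 ψ 0 v := by
    intro ψ v
    have hgp : g ^ p ∈ K' := Subgroup.le_topologicalClosure _ (Subgroup.mem_zpowers _)
    have h1 : ∀ k : K', S ψ p k v = S ψ 0 ((⟨g ^ p, hgp⟩ : K')⁻¹ * k) v := by
      intro k
      show ψ (φ ((g ^ p * ((k⁻¹ : K') : H)) • φ.symm v)) =
        ψ (φ ((g ^ 0 * ((((⟨g ^ p, hgp⟩ : K')⁻¹ * k)⁻¹ : K') : H)) • φ.symm v))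
      congr 3
      rw [pow_zero, one_mul, mul_inv_rev, inv_inv, Subgroup.coe_mul]
      exact ((hcomm k).pow_left p).eq
    show ∫ k, S ψ p k v ∂μ = ∫ k, S ψ 0 k v ∂μ
    simp_rw [h1]
    exact integral_mul_left_eq_self (fun k => S ψ 0 k v) ((⟨g ^ p, hgp⟩ : K')⁻¹)
  have hp0 : (p : ℂ) ≠ 0 := by exact_mod_cast hp.ne'
  have hpR : (0 : ℝ) < p := by exact_mod_cast hp
  have hnrm : ∀ (f : ℕ → ℂ) (c : ℝ), (∀ i ∈ Finset.range p, ‖f i‖ ≤ c) →
      ‖(p : ℂ)⁻¹ * ∑ i ∈ Finset.range p, ζ⁻¹ ^ i * f i‖ ≤ c := by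
    intro f c hf
    have h1 : ‖∑ i ∈ Finset.range p, ζ⁻¹ ^ i * f i‖ ≤ p * c := by
      refine (norm_sum_le _ _).trans ?_
      have h2 : ∑ i ∈ Finset.range p, ‖ζ⁻¹ ^ i * f i‖ ≤ ∑ i ∈ Finset.range p, c := by
        refine Finset.sum_le_sum fun i hi => ?_
        rw [norm_mul, norm_pow, norm_inv, hζ1, inv_one, one_pow, one_mul]
        exact hf i hi
      rw [Finset.sum_const, Finset.card_range, nsmul_eq_mul] at h2
      exact h2
    rw [norm_mul, norm_inv, Complex.norm_natCast]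
    calc (p : ℝ)⁻¹ * ‖∑ i ∈ Finset.range p, ζ⁻¹ ^ i * f i‖ ≤ (p : ℝ)⁻¹ * (p * c) := by gcongr
      _ = c := by field_simp
  refine ⟨fun ψ v => (p : ℂ)⁻¹ * ∑ i ∈ Finset.range p, ζ⁻¹ ^ i * a0 ψ i v,
    ?_, ?_, ?_, ?_, ?_, ?_, ?_⟩
  · intro ψ
    refine continuousOn_const.mul ?_
    exact continuousOn_finsetSum _ fun i _ => continuousOn_const.mul (ha0c ψ i)
  · intro ψ v hv
    show (p : ℂ)⁻¹ * ∑ i ∈ Finset.range p, ζ⁻¹ ^ i * a0 ψ i (φ (g • φ.symm v)) =
      ζ * ((p : ℂ)⁻¹ * ∑ i ∈ Finset.range p, ζ⁻¹ ^ i * a0 ψ i v)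
    have h1 : ∀ i, ζ⁻¹ ^ i * a0 ψ i (φ (g • φ.symm v)) = ζ * (ζ⁻¹ ^ (i + 1) * a0 ψ (i + 1) v) := by
      intro i
      rw [ha0g ψ i v hv, pow_succ]
      field_simp
    simp_rw [h1]
    rw [← Finset.mul_sum]
    have h2 : ∑ i ∈ Finset.range p, ζ⁻¹ ^ (i + 1) * a0 ψ (i + 1) v =
        ∑ i ∈ Finset.range p, ζ⁻¹ ^ i * a0 ψ i v := by
      have h3 := Finset.sum_range_succ (fun i => ζ⁻¹ ^ i * a0 ψ i v) p
      have h4 := Finset.sum_range_succ' (fun i => ζ⁻¹ ^ i * a0 ψ i v) p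
      rw [h3] at h4
      have h5 : ζ⁻¹ ^ p * a0 ψ p v = ζ⁻¹ ^ 0 * a0 ψ 0 v := by
        rw [ha0p, inv_pow, hζp, inv_one, pow_zero]
      rw [h5] at h4
      exact (add_right_cancel h4).symm
    rw [h2]
    ring
  · intro ψ ψ' v hv
    have h1 : ∀ i, a0 (ψ + ψ') i v = a0 ψ i v + a0 ψ' i v := fun i =>
      integral_add (hSint ψ i v hv) (hSint ψ' i v hv)
    show (p : ℂ)⁻¹ * ∑ i ∈ Finset.range p, ζ⁻¹ ^ i * a0 (ψ + ψ') i v =
      (p : ℂ)⁻¹ * ∑ i ∈ Finset.range p, ζ⁻¹ ^ i * a0 ψ i v +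
        (p : ℂ)⁻¹ * ∑ i ∈ Finset.range p, ζ⁻¹ ^ i * a0 ψ' i v
    simp_rw [h1, mul_add]
    rw [Finset.sum_add_distrib]
    ring
  · intro ψ c v hv hc
    refine hnrm _ c fun i _ => ?_
    have h2 := norm_integral_le_of_norm_le_const (μ := μ) (f := fun k => S ψ i k v) (C := c)
      (Eventually.of_forall fun k => hc _ (hmem i k))
    simpa using h2
  · intro ψ a v hv ha
    have h1 : ∀ i ∈ Finset.range p, ζ⁻¹ ^ i * a0 ψ i v = a := by
      intro i hi
      have h2 : ∀ k : K', S ψ i k v = ζ ^ i * a := fun k => ha i (Finset.mem_range.1 hi) _ (k⁻¹).2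
      have h3 : a0 ψ i v = ζ ^ i * a := by
        show ∫ k, S ψ i k v ∂μ = ζ ^ i * a
        simp_rw [h2]
        simp
      rw [h3, inv_pow]
      field_simp
    show (p : ℂ)⁻¹ * ∑ i ∈ Finset.range p, ζ⁻¹ ^ i * a0 ψ i v = a
    rw [Finset.sum_congr rfl h1, Finset.sum_const, Finset.card_range, nsmul_eq_mul]
    field_simp
  · intro ψ v hv hψ hv0 hz
    have h1 : ∑ i ∈ Finset.range p, ζ⁻¹ ^ i * a0 ψ i v = a0 ψ 0 v := by
      rw [Finset.sum_eq_single_of_mem 0 (Finset.mem_range.2 hp)]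
      · rw [pow_zero, one_mul]
      · intro i hi hi0
        have h2 : ∀ k : K', S ψ i k v = 0 := fun k =>
          hz i (Nat.pos_of_ne_zero hi0) (Finset.mem_range.1 hi) _ (k⁻¹).2
        have h3 : a0 ψ i v = 0 := by
          show ∫ k, S ψ i k v ∂μ = 0
          simp_rw [h2]
          simp
        rw [h3, mul_zero]
    show (p : ℂ)⁻¹ * ∑ i ∈ Finset.range p, ζ⁻¹ ^ i * a0 ψ i v ≠ 0
    rw [h1]
    refine mul_ne_zero (inv_ne_zero hp0) ?_
    choose a ha0 ha using hψ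
    have hre : ∀ u, (ψ u).re = a u := fun u => by rw [ha u]; simp
    have hac : Continuous a := by
      have h2 : a = fun u => (ψ u).re := funext fun u => (hre u).symm
      rw [h2]
      exact Complex.continuous_re.comp ψ.continuous
    intro h0
    let s : K' → ℝ := fun k => (S ψ 0 k v).re
    have hsc : Continuous s := Complex.continuous_re.comp (hSc1 ψ 0 v hv)
    have hs0 : ∀ k, 0 ≤ s k := fun k => by
      show 0 ≤ (ψ _).re
      rw [hre]
      exact ha0 _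
    have hpos : 0 < ∫ k, s k ∂μ := by
      refine hsc.integral_pos_of_hasCompactSupport_nonneg_nonzero (x := 1)
        (HasCompactSupport.of_compactSpace _) hs0 ?_
      show (ψ (φ ((g ^ 0 * (((1 : K')⁻¹ : K') : H)) • φ.symm v))).re ≠ 0
      rw [pow_zero, one_mul, inv_one, Subgroup.coe_one, one_smul, φ.right_inv (ht hv), hre]
      intro h2
      apply hv0
      rw [ha, h2, Complex.ofReal_zero]
    have h2 : ∫ k, s k ∂μ = (∫ k, S ψ 0 k v ∂μ).re := by
      have := integral_re (𝕜 := ℂ) (hSint ψ 0 v hv)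
      exact this
    have h3 : ∫ k, S ψ 0 k v ∂μ = 0 := h0
    rw [h2, h3, Complex.zero_re] at hpos
    exact lt_irrefl _ hpos
  · intro ψ q hq Q σ r b hσ hE
    have h1 : ∀ i, EnR q Q r b (fun u => a0 ψ i (σ u)) := fun i =>
      enR_avg hq μ (fun k u => S ψ i k (σ u)) (fun u hu => hSc1 ψ i _ (hσ u hu))
        (fun k => hE _ (hmem i k))
    exact enR_mean hq hp (c := fun i => ζ⁻¹ ^ i) (fun i => by
      rw [norm_pow, norm_inv, hζ1, inv_one, one_pow]) h1

end Pool.Agent.U498.HSF
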