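import Pool.Agent.U498.HSF.Glob
import Pool.Agent.R775.HS.Fin

/-!
# Maps of fractional Sobolev class have bounded energies (helper498)
-/

set_option autoImplicit false
set_option linter.unusedSectionVars false

open MeasureTheory Set Metric Filter Topology TopologicalSpace
open scoped ENNReal NNReal

namespace Pool.Agent.U498.HSF

open Pool.Agent.Y485.HS Pool.Agent.Y489.SP Pool.Agent.Y475.HS Pool.Agent.R775.HS
  Pool.Agent.R775.HC Pool.Agent.N512.HS Pool.Agent.N512.CC

/-- the fractional Sobolev class of order `s` and exponent `q`, in the form of Hajlasz -/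
def FracS {n : ℕ} (s q : ℝ) (O : Set (E n)) (f : E n → E n) : Prop :=
  ∃ h : E n → ℝ≥0∞, Measurable h ∧
    (∀ v ∈ O, ∀ w ∈ O, edist (f v) (f w) ≤ ENNReal.ofReal (dist v w ^ s) * (h v + h w)) ∧
    ∫⁻ v in O, h v ^ q < ∞

/-- reduction of the exponent on bounded sets -/
theorem fracS_red {n : ℕ} {s q q' : ℝ} (hq' : 0 < q') (hqq : q' ≤ q) {O O' : Set (E n)}
    (hOO : O' ⊆ O) (hO' : volume O' < ∞) {f : E n → E n} (h : FracS s q O f) :
    FracS s q' O' f := by
  obtain ⟨h, hm, hH, hI⟩ := h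
  refine ⟨h, hm, fun v hv w hw => hH v (hOO hv) w (hOO hw), ?_⟩
  have hle : ∫⁻ x in O', h x ^ q' ≤ ∫⁻ x in O', (1 + h x ^ q) := by
    apply lintegral_mono
    intro x
    rcases le_or_gt (h x) 1 with h1 | h1
    · calc h x ^ q' ≤ 1 ^ q' := ENNReal.rpow_le_rpow h1 hq'.le
        _ = 1 := ENNReal.one_rpow _
        _ ≤ _ := le_self_add
    · exact (ENNReal.rpow_le_rpow_of_exponent_le h1.le hqq).trans le_add_self
  refine lt_of_le_of_lt hle ?_
  rw [lintegral_add_left measurable_const, lintegral_const, one_mul, Measure.restrict_apply_univ]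
  exact ENNReal.add_lt_top.2 ⟨hO', lt_of_le_of_lt (lintegral_mono_set hOO) hI⟩

/-- a point of a ball at which `h` is not larger than its mean of exponent `q` -/
theorem exists_pt {n : ℕ} {q : ℝ} (hq : 0 < q) {h : E n → ℝ≥0∞} (hm : Measurable h) {x : E n}
    {ρ : ℝ} (hρ : 0 < ρ) {J : ℝ} (hJ0 : 0 ≤ J)
    (hJ : ∫⁻ v in closedBall x ρ, h v ^ q ≤ ENNReal.ofReal J) :
    ∃ z ∈ closedBall x ρ, h z ≤ ENNReal.ofReal
      ((J / (volume (ball (0 : E n) 1)).toReal / ρ ^ n) ^ q⁻¹) := by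
  set c : ℝ := (volume (ball (0 : E n) 1)).toReal with hc
  have hc0 : 0 < c := ENNReal.toReal_pos (measure_ball_pos _ _ one_pos).ne' measure_ball_lt_top.ne
  have hvol : volume (closedBall x ρ) = ENNReal.ofReal (ρ ^ n * c) := by
    rw [Measure.addHaar_closedBall _ _ hρ.le, ENNReal.ofReal_mul (by positivity), hc,
      ENNReal.ofReal_toReal measure_ball_lt_top.ne, finrank_euclideanSpace_fin]
  have h0 : volume (closedBall x ρ) ≠ 0 := (measure_closedBall_pos _ _ hρ).ne'
  have h1 : volume (closedBall x ρ) ≠ ∞ := measure_closedBall_lt_top.ne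
  obtain ⟨z, hz, hzle⟩ := exists_le_setLAverage h0 h1
    (f := fun v => h v ^ q) (hm.pow_const q).aemeasurable
  refine ⟨z, hz, ?_⟩
  have h2 : h z ^ q ≤ ENNReal.ofReal (J / c / ρ ^ n) := by
    refine hzle.trans ?_
    rw [setLAverage_eq, hvol]
    calc (∫⁻ v in closedBall x ρ, h v ^ q) / ENNReal.ofReal (ρ ^ n * c)
        ≤ ENNReal.ofReal J / ENNReal.ofReal (ρ ^ n * c) := ENNReal.div_le_div_right hJ _
      _ = ENNReal.ofReal (J / (ρ ^ n * c)) :=
          (ENNReal.ofReal_div_of_pos (by positivity)).symm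
      _ = ENNReal.ofReal (J / c / ρ ^ n) := by
          congr 1
          field_simp
  have h3 : (h z ^ q) ^ q⁻¹ ≤ (ENNReal.ofReal (J / c / ρ ^ n)) ^ q⁻¹ :=
    ENNReal.rpow_le_rpow h2 (by positivity)
  rw [← ENNReal.rpow_mul, mul_inv_cancel₀ hq.ne', ENNReal.rpow_one,
    ENNReal.ofReal_rpow_of_nonneg (by positivity) (by positivity)] at h3
  exact h3

/-- Morrey's inequality -/
theorem morrey {n : ℕ} {s q : ℝ} (hs : 0 < s) (hq : 0 < q) (hsq : (n : ℝ) < s * q) :
    ∃ C : ℝ, 0 ≤ C ∧ ∀ (f : E n → E n) (h : E n → ℝ≥0∞) (a : E n) (r J : ℝ), Measurable h →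
      0 < r → 0 ≤ J → ContinuousOn f (closedBall a (2 * r)) →
      (∀ v ∈ closedBall a (2 * r), ∀ w ∈ closedBall a (2 * r),
        edist (f v) (f w) ≤ ENNReal.ofReal (dist v w ^ s) * (h v + h w)) →
      ∫⁻ v in closedBall a (2 * r), h v ^ q ≤ ENNReal.ofReal J →
      ∀ x ∈ closedBall a r, ∀ y ∈ closedBall a r, dist (f x) (f y) ^ q ≤ C * r ^ (s * q - n) * J := by
  set c : ℝ := (volume (ball (0 : E n) 1)).toReal with hc
  have hc0 : 0 < c := ENNReal.toReal_pos (measure_ball_pos _ _ one_pos).ne' measure_ball_lt_top.ne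
  set γ : ℝ := s - n / q with hγ
  have hγ0 : 0 < γ := by
    rw [hγ, sub_pos, div_lt_iff₀ hq]
    exact hsq
  set θ : ℝ := (1 / 2 : ℝ) ^ γ with hθ
  have hθ0 : 0 ≤ θ := by positivity
  have hθ1 : θ < 1 := Real.rpow_lt_one (by norm_num) (by norm_num) hγ0
  set D : ℝ := 2 ^ (s + 1 + n / q) / (1 - θ) with hD
  have hD0 : 0 ≤ D := by
    have : 0 < 1 - θ := by linarith
    positivity
  set C0 : ℝ := (D + D + 2 * 4 ^ s) with hC0
  have hC00 : 0 ≤ C0 := by positivity
  refine ⟨C0 ^ q / c, by positivity, ?_⟩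
  intro f h a r J hm hr hJ0 hf hH hJ
  set P : ℝ := (J / c) ^ q⁻¹ with hP
  have hP0 : 0 ≤ P := by positivity
  -- the bound for `h`
  have hbd : ∀ (ρ : ℝ), 0 < ρ → (J / c / ρ ^ n) ^ q⁻¹ = P * ρ ^ (-(n / q)) := by
    intro ρ hρ
    have e : (ρ ^ n) ^ q⁻¹ = ρ ^ ((n : ℝ) / q) := by
      rw [← Real.rpow_natCast, ← Real.rpow_mul hρ.le, div_eq_mul_inv]
    rw [Real.div_rpow (by positivity) (by positivity), e, Real.rpow_neg hρ.le,
      div_eq_mul_inv _ (ρ ^ ((n : ℝ) / q))]
  have hsub : ∀ x ∈ closedBall a r, ∀ ρ : ℝ, ρ ≤ r → closedBall x ρ ⊆ closedBall a (2 * r) := by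
    intro x hx ρ hρ
    rw [mem_closedBall] at hx
    exact closedBall_subset_closedBall' (by linarith)
  -- two points
  have htwo : ∀ z ∈ closedBall a (2 * r), ∀ z' ∈ closedBall a (2 * r), ∀ (d B : ℝ), 0 ≤ B →
      dist z z' ≤ d → h z ≤ ENNReal.ofReal B → h z' ≤ ENNReal.ofReal B →
        dist (f z) (f z') ≤ d ^ s * (2 * B) := by
    intro z hz z' hz' d B hB hd h1 h2
    have hd0 : 0 ≤ d := dist_nonneg.trans hd
    have h3 : edist (f z) (f z') ≤ ENNReal.ofReal (d ^ s * (2 * B)) := by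
      refine (hH z hz z' hz').trans ?_
      rw [ENNReal.ofReal_mul (by positivity), two_mul, ENNReal.ofReal_add hB hB]
      gcongr
    rw [edist_dist] at h3
    exact (ENNReal.ofReal_le_ofReal_iff (by positivity)).1 h3
  -- the chain
  have hchain : ∀ x ∈ closedBall a r, ∃ z ∈ closedBall x r, h z ≤ ENNReal.ofReal (P * r ^ (-(n / q)))
      ∧ dist (f z) (f x) ≤ D * P * r ^ γ := by
    intro x hx
    have hpt : ∀ k : ℕ, ∃ z ∈ closedBall x (r * (1 / 2) ^ k),
        h z ≤ ENNReal.ofReal (P * (r * (1 / 2) ^ k) ^ (-(n / q))) := by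
      intro k
      have hρ : 0 < r * (1 / 2 : ℝ) ^ k := by positivity
      have hρr : r * (1 / 2 : ℝ) ^ k ≤ r := by
        have : (1 / 2 : ℝ) ^ k ≤ 1 := pow_le_one₀ (by norm_num) (by norm_num)
        nlinarith
      obtain ⟨z, hz, h1⟩ := exists_pt (x := x) hq hm hρ hJ0
        (le_trans (lintegral_mono_set (hsub x hx _ hρr)) hJ)
      refine ⟨z, hz, ?_⟩
      rwa [← hc, hbd _ hρ] at h1
    choose z hz hhz using hpt
    have hzr : ∀ k, r * (1 / 2 : ℝ) ^ k ≤ r := by
      intro k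
      have : (1 / 2 : ℝ) ^ k ≤ 1 := pow_le_one₀ (by norm_num) (by norm_num)
      nlinarith
    have hz2 : ∀ k, z k ∈ closedBall a (2 * r) := fun k => hsub x hx _ (hzr k) (hz k)
    have hstep : ∀ k, dist (f (z k)) (f (z (k + 1))) ≤
        (2 ^ (s + 1 + n / q) * P * r ^ γ) * θ ^ k := by
      intro k
      set ρ : ℝ := r * (1 / 2) ^ k with hρdef
      have hρ : 0 < ρ := by positivity
      have hρ1 : r * (1 / 2 : ℝ) ^ (k + 1) = ρ / 2 := by
        rw [hρdef, pow_succ]
        ring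
      have hd : dist (z k) (z (k + 1)) ≤ 2 * ρ := by
        have h1 := hz k
        have h2 := hz (k + 1)
        rw [mem_closedBall] at h1 h2
        rw [hρ1] at h2
        have := dist_triangle_right (z k) (z (k + 1)) x
        linarith
      have hnq : (0 : ℝ) ≤ n / q := by positivity
      have h1 : h (z k) ≤ ENNReal.ofReal (P * (ρ / 2) ^ (-(n / q))) := by
        refine (hhz k).trans (ENNReal.ofReal_le_ofReal ?_)
        refine mul_le_mul_of_nonneg_left ?_ hP0
        exact Real.rpow_le_rpow_of_nonpos (by positivity) (by linarith) (by linarith)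
      have h2 : h (z (k + 1)) ≤ ENNReal.ofReal (P * (ρ / 2) ^ (-(n / q))) := by
        have := hhz (k + 1)
        rwa [hρ1] at this
      have h3 := htwo _ (hz2 k) _ (hz2 (k + 1)) (2 * ρ) _ (by positivity) hd h1 h2
      refine h3.trans (le_of_eq ?_)
      have e1 : θ ^ k * r ^ γ = ρ ^ γ := by
        rw [hρdef, Real.mul_rpow hr.le (by positivity), hθ, ← Real.rpow_natCast, ← Real.rpow_natCast,
          ← Real.rpow_mul (by norm_num), ← Real.rpow_mul (by norm_num), mul_comm γ]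
        ring
      have e2 : (ρ / 2) ^ (-(n / q)) = ρ ^ (-(n / q)) * 2 ^ ((n : ℝ) / q) := by
        rw [Real.div_rpow hρ.le (by norm_num), Real.rpow_neg (x := 2) (by norm_num), div_inv_eq_mul]
      have e3 : (2 * ρ) ^ s = 2 ^ s * ρ ^ s := Real.mul_rpow (by norm_num) hρ.le
      have e4 : (2 : ℝ) ^ (s + 1 + n / q) = 2 ^ s * 2 * 2 ^ ((n : ℝ) / q) := by
        rw [Real.rpow_add (by norm_num), Real.rpow_add (by norm_num), Real.rpow_one]
      have e5 : ρ ^ γ = ρ ^ s * ρ ^ (-(n / q)) := by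
        rw [← Real.rpow_add hρ, hγ]
        ring_nf
      calc (2 * ρ) ^ s * (2 * (P * (ρ / 2) ^ (-(n / q))))
          = 2 ^ s * 2 * 2 ^ ((n : ℝ) / q) * P * (ρ ^ s * ρ ^ (-(n / q))) := by
            rw [e2, e3]
            ring
        _ = 2 ^ (s + 1 + n / q) * P * r ^ γ * θ ^ k := by
            rw [← e5, ← e4, ← e1]
            ring
    have hlim : Tendsto (fun k => f (z k)) atTop (𝓝 (f x)) := by
      have hx2 : x ∈ closedBall a (2 * r) := hsub x hx r le_rfl (mem_closedBall_self hr.le)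
      have h1 : Tendsto z atTop (𝓝[closedBall a (2 * r)] x) := by
        refine tendsto_nhdsWithin_iff.2 ⟨?_, Eventually.of_forall hz2⟩
        rw [tendsto_iff_dist_tendsto_zero]
        have h2 : Tendsto (fun k : ℕ => r * (1 / 2 : ℝ) ^ k) atTop (𝓝 0) := by
          have := (tendsto_pow_atTop_nhds_zero_of_lt_one (r := (1 / 2 : ℝ)) (by norm_num)
            (by norm_num)).const_mul r
          rwa [mul_zero] at this
        exact squeeze_zero (fun k => dist_nonneg) (fun k => hz k) h2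
      exact (hf x hx2).tendsto.comp h1
    have h4 := dist_le_of_le_geometric_of_tendsto₀ θ _ hθ1 hstep hlim
    refine ⟨z 0, ?_, ?_, ?_⟩
    · have := hz 0
      rwa [pow_zero, mul_one] at this
    · have := hhz 0
      rwa [pow_zero, mul_one] at this
    · refine h4.trans (le_of_eq ?_)
      rw [hD]
      ring
  intro x hx y hy
  obtain ⟨z, hz, hhz, hzx⟩ := hchain x hx
  obtain ⟨w, hw, hhw, hwy⟩ := hchain y hy
  have hzw : dist z w ≤ 4 * r := by
    rw [mem_closedBall] at hz hw hx hy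
    have h1 := dist_triangle_right z w a
    have h2 := dist_triangle z x a
    have h3 := dist_triangle w y a
    linarith
  have h5 := htwo z (hsub x hx r le_rfl hz) w (hsub y hy r le_rfl hw) (4 * r) _ (by positivity)
    hzw hhz hhw
  have e6 : (4 * r) ^ s * (2 * (P * r ^ (-(n / q)))) = 2 * 4 ^ s * P * r ^ γ := by
    have e7 : r ^ γ = r ^ s * r ^ (-(n / q)) := by
      rw [← Real.rpow_add hr, hγ]
      ring_nf
    rw [Real.mul_rpow (by norm_num) hr.le, e7]
    ring
  rw [e6] at h5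
  have h6 : dist (f x) (f y) ≤ C0 * P * r ^ γ := by
    calc dist (f x) (f y) ≤ dist (f z) (f x) + dist (f z) (f w) + dist (f w) (f y) := by
          have k1 := dist_triangle4 (f x) (f z) (f w) (f y)
          rwa [dist_comm (f x) (f z)] at k1
      _ ≤ D * P * r ^ γ + 2 * 4 ^ s * P * r ^ γ + D * P * r ^ γ := by linarith
      _ = C0 * P * r ^ γ := by
          rw [hC0]
          ring
  calc dist (f x) (f y) ^ q ≤ (C0 * P * r ^ γ) ^ q := Real.rpow_le_rpow dist_nonneg h6 hq.le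
    _ = C0 ^ q * P ^ q * (r ^ γ) ^ q := by
        rw [Real.mul_rpow (by positivity) (by positivity), Real.mul_rpow hC00 hP0]
    _ = C0 ^ q * (J / c) * r ^ (s * q - n) := by
        have e8 : P ^ q = J / c := by
          rw [hP, ← Real.rpow_mul (by positivity), inv_mul_cancel₀ hq.ne', Real.rpow_one]
        have e9 : (r ^ γ) ^ q = r ^ (s * q - n) := by
          rw [← Real.rpow_mul hr.le, hγ]
          congr 1
          field_simp
        rw [e8, e9]
    _ = C0 ^ q / c * r ^ (s * q - n) * J := by ring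

/-- the energies of maps of fractional Sobolev class are bounded -/
theorem frac_ener {n : ℕ} {s q : ℝ} (hs : 0 < s) (hq : 0 < q) (hsq : (n : ℝ) < s * q)
    {f : E n → E n} {z0 : E n} {ρ : ℝ}
    (hf : ContinuousOn f (closedBall z0 (3 * ρ)))
    (hF : FracS s q (closedBall z0 (3 * ρ)) f) :
    ∃ C : ℝ, ∀ r : ℝ, 0 < r → r ≤ ρ → r ≤ 1 → EnR q (closedBall z0 ρ) r C f := by
  classical
  obtain ⟨h, hm, hH, hI⟩ := hF
  obtain ⟨C, hC0, hC⟩ := morrey (n := n) hs hq hsq
  set G : ℝ := (∫⁻ v in closedBall z0 (3 * ρ), h v ^ q).toReal with hG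
  have hG0 : 0 ≤ G := ENNReal.toReal_nonneg
  have hGe : ∫⁻ v in closedBall z0 (3 * ρ), h v ^ q = ENNReal.ofReal G :=
    (ENNReal.ofReal_toReal hI.ne).symm
  refine ⟨C * (5 ^ n * G), ?_⟩
  intro r hr hrρ hr1 A x y h1 h2
  have hsubB : ∀ a ∈ A, closedBall a (2 * r) ⊆ closedBall z0 (3 * ρ) := by
    intro a ha
    have h3 := (h1 a ha).1
    rw [mem_closedBall] at h3
    exact closedBall_subset_closedBall' (by linarith)
  have hMz : ∀ z : E n, ((A.filter fun a => z ∈ closedBall a (2 * r)).card : ℝ≥0∞) ≤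
      ENNReal.ofReal (5 ^ n) := by
    intro z
    rw [← ENNReal.ofReal_natCast]
    apply ENNReal.ofReal_le_ofReal
    have := Pool.Agent.Y662.SP.SOB.pack z hr (R := 2 * r) (by positivity)
      (A.filter fun a => z ∈ closedBall a (2 * r))
      (fun a ha => by
        have := (Finset.mem_filter.1 ha).2
        rw [mem_closedBall] at this
        rw [dist_comm]; exact this)
      (fun a ha b hb hab => h2 a (Finset.mem_filter.1 ha).1 b (Finset.mem_filter.1 hb).1 hab)
    refine this.trans (le_of_eq ?_)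
    congr 1
    field_simp
    ring
  have hov := overlap' (F := fun z => h z ^ q) (hm.pow_const q) A hsubB hMz
  have hfinJ : ∀ a ∈ A, ∫⁻ v in closedBall a (2 * r), h v ^ q < ∞ := fun a ha =>
    lt_of_le_of_lt (lintegral_mono_set (hsubB a ha)) hI
  have hsumJ : ∑ a ∈ A, (∫⁻ v in closedBall a (2 * r), h v ^ q).toReal ≤ 5 ^ n * G := by
    rw [← ENNReal.toReal_sum (fun a ha => (hfinJ a ha).ne)]
    refine ENNReal.toReal_le_of_le_ofReal (by positivity) ?_
    rw [ENNReal.ofReal_mul (by positivity), ← hGe]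
    exact hov
  have hterm : ∀ a ∈ A, dist (f (x a)) (f (y a)) ^ q ≤
      C * (∫⁻ v in closedBall a (2 * r), h v ^ q).toReal := by
    intro a ha
    obtain ⟨-, -, -, g4, g5⟩ := h1 a ha
    have h3 := hC f h a r (∫⁻ v in closedBall a (2 * r), h v ^ q).toReal hm hr
      ENNReal.toReal_nonneg (hf.mono (hsubB a ha))
      (fun v hv w hw => hH v (hsubB a ha hv) w (hsubB a ha hw))
      (by rw [ENNReal.ofReal_toReal (hfinJ a ha).ne]) (x a) (mem_closedBall.2 g4) (y a)
      (mem_closedBall.2 g5)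
    refine h3.trans ?_
    have h4 : r ^ (s * q - n) ≤ 1 := Real.rpow_le_one hr.le hr1 (by linarith)
    have h5 : C * r ^ (s * q - n) ≤ C * 1 := mul_le_mul_of_nonneg_left h4 hC0
    rw [mul_one] at h5
    exact mul_le_mul_of_nonneg_right h5 ENNReal.toReal_nonneg
  calc ∑ a ∈ A, dist (f (x a)) (f (y a)) ^ q
      ≤ ∑ a ∈ A, C * (∫⁻ v in closedBall a (2 * r), h v ^ q).toReal := Finset.sum_le_sum hterm
    _ = C * ∑ a ∈ A, (∫⁻ v in closedBall a (2 * r), h v ^ q).toReal := by rw [Finset.mul_sum]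
    _ ≤ C * (5 ^ n * G) := mul_le_mul_of_nonneg_left hsumJ hC0

end Pool.Agent.U498.HSF
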