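import Pool.Agent.U498.HSF.Loc
import Pool.Agent.R775.HC.C4
import Pool.Agent.N512.CC.Circ2
import Pool.Agent.N512.CC.Deg
import Pool.Agent.N512.CC.Miss
import Pool.Agent.N512.CC.Cone
import Pool.Agent.N512.CC.Comb

/-!
# Cosets with uniformly bounded energies, countable exceptional sets, globalisation (helper498)
-/

set_option autoImplicit false
set_option linter.unusedSectionVars false

open MeasureTheory Set Metric Filter Topology TopologicalSpace
open scoped ENNReal NNReal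

namespace Pool.Agent.U498.HSF

open Pool.Agent.Y485.HS Pool.Agent.Y489.SP Pool.Agent.Y475.HS Pool.Agent.R775.HS
  Pool.Agent.R775.HC Pool.Agent.N512.HS Pool.Agent.N512.CC
open Pool.Agent.W660.GY (NSS GY3)

theorem circ : S_CIRC := Circ.t_CIRC t_DEG Miss.t_MISS Cone.t_CONE Cone.t_GEN t_COMB

/-- raising the exponent -/
theorem enR_up {n : ℕ} {V : Type} [PseudoMetricSpace V] {q0 q : ℝ} (hq0 : 0 < q0) (hq : q0 ≤ q)
    {Q : Set (E n)} {r M ω : ℝ} {f : E n → V} (hω : 0 ≤ ω)
    (hf : ∀ x ∈ Q, ∀ y ∈ Q, dist x y ≤ 2 * r → dist (f x) (f y) ≤ ω) (h : EnR q0 Q r M f) :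
    EnR q Q r (ω ^ (q - q0) * M) f := by
  intro A x y h1 h2
  calc ∑ a ∈ A, dist (f (x a)) (f (y a)) ^ q
      ≤ ∑ a ∈ A, ω ^ (q - q0) * dist (f (x a)) (f (y a)) ^ q0 := by
        refine Finset.sum_le_sum fun a ha => ?_
        obtain ⟨-, g2, g3, g4, g5⟩ := h1 a ha
        have h3 : dist (x a) (y a) ≤ 2 * r := by
          have := dist_triangle_right (x a) (y a) a
          linarith
        have h4 := hf _ g2 _ g3 h3
        have h5 : dist (f (x a)) (f (y a)) ^ q =
            dist (f (x a)) (f (y a)) ^ (q - q0) * dist (f (x a)) (f (y a)) ^ q0 := by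
          rw [← Real.rpow_add_of_nonneg dist_nonneg (by linarith) hq0.le]
          congr 1
          ring
        rw [h5]
        exact mul_le_mul_of_nonneg_right (Real.rpow_le_rpow dist_nonneg h4 (by linarith))
          (Real.rpow_nonneg dist_nonneg _)
    _ = ω ^ (q - q0) * ∑ a ∈ A, dist (f (x a)) (f (y a)) ^ q0 := by rw [Finset.mul_sum]
    _ ≤ ω ^ (q - q0) * M :=
        mul_le_mul_of_nonneg_left (h A x y h1 h2) (Real.rpow_nonneg hω _)

/-- a compact family of continuous maps has a common modulus of continuity -/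
theorem unif_osc {n : ℕ} {K : Type} [TopologicalSpace K] [CompactSpace K] {Q : Set (E n)}
    (hQ : IsCompact Q) {f : K → E n → E n}
    (hf : ContinuousOn (fun z : K × E n => f z.1 z.2) (univ ×ˢ Q)) {r : ℕ → ℝ}
    (hr : Tendsto r atTop (𝓝 0)) :
    ∃ ω : ℕ → ℝ, Tendsto ω atTop (𝓝 0) ∧ (∀ j, 0 ≤ ω j) ∧
      ∀ j, ∀ k, ∀ x ∈ Q, ∀ y ∈ Q, dist x y ≤ 2 * r j → dist (f k x) (f k y) ≤ ω j := by
  classical
  have : CompactSpace Q := isCompact_iff_compactSpace.1 hQ
  let F : C(Q × K, E n) := ⟨fun z => f z.2 z.1, by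
    have hc : Continuous (fun z : Q × K => ((z.2, (z.1 : E n)) : K × E n)) := by fun_prop
    exact hf.comp_continuous hc fun z => ⟨mem_univ _, z.1.2⟩⟩
  have hu : UniformContinuous F.curry :=
    CompactSpace.uniformContinuous_of_continuous F.curry.continuous
  rw [Metric.uniformContinuous_iff] at hu
  have hF : ∀ (x : Q) (k : K), F.curry x k = f k x := fun x k => rfl
  let D : ℕ → Set ℝ := fun j => {d | d = 0 ∨ ∃ (k : K) (x y : Q), dist (x : E n) y ≤ 2 * r j ∧
    d = dist (f k x) (f k y)}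
  obtain ⟨C, hC⟩ : ∃ C : ℝ, ∀ (x y : Q), dist (F.curry x) (F.curry y) ≤ C := by
    have h1 : IsCompact (range F.curry) := isCompact_range F.curry.continuous
    obtain ⟨C, hC⟩ := h1.isBounded.subset_closedBall (0 : C(K, E n))
    refine ⟨C + C, fun x y => ?_⟩
    have h2 := hC (mem_range_self x)
    have h3 := hC (mem_range_self y)
    rw [mem_closedBall] at h2 h3
    have := dist_triangle_right (F.curry x) (F.curry y) 0
    linarith
  have hC0 : ∀ j, ∀ d ∈ D j, d ≤ max 0 C := by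
    rintro j d (rfl | ⟨k, x, y, -, rfl⟩)
    · exact le_max_left _ _
    · rw [← hF, ← hF]
      exact ((ContinuousMap.dist_apply_le_dist k).trans (hC x y)).trans (le_max_right _ _)
  have hbdd : ∀ j, BddAbove (D j) := fun j => ⟨_, fun d hd => hC0 j d hd⟩
  refine ⟨fun j => sSup (D j), ?_, fun j => le_csSup (hbdd j) (Or.inl rfl), ?_⟩
  · rw [Metric.tendsto_atTop]
    intro ε hε
    obtain ⟨δ, hδ, hδ'⟩ := hu (ε / 2) (half_pos hε)
    rw [Metric.tendsto_atTop] at hr
    obtain ⟨N, hN⟩ := hr (δ / 2) (half_pos hδ)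
    refine ⟨N, fun j hj => ?_⟩
    have h1 : |r j| < δ / 2 := by simpa [Real.dist_eq] using hN j hj
    have h2 : sSup (D j) ≤ ε / 2 := by
      refine csSup_le ⟨0, Or.inl rfl⟩ ?_
      rintro d (rfl | ⟨k, x, y, hxy, rfl⟩)
      · positivity
      · have h3 : dist x y < δ := by
          have h4 := abs_lt.1 h1
          have h5 : dist x y = dist (x : E n) y := rfl
          rw [h5]
          linarith
        rw [← hF, ← hF]
        exact (ContinuousMap.dist_apply_le_dist k).trans (hδ' h3).le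
    have h3 : 0 ≤ sSup (D j) := le_csSup (hbdd j) (Or.inl rfl)
    rw [Real.dist_eq, sub_zero, abs_of_nonneg h3]
    linarith
  · intro j k x hx y hy hxy
    exact le_csSup (hbdd j) (Or.inr ⟨k, ⟨x, hx⟩, ⟨y, hy⟩, hxy, rfl⟩)

section
variable {n : ℕ} {X : Type} [TopologicalSpace X]

/-- the set of the elements with bounded energies on `B` and with images of `B` in `B'` -/
def DsetR {S : Type} [Group S] [MulAction S X] (ψ χ : OpenPartialHomeomorph X (E n))
    (q : ℝ) (r b : ℕ → ℝ) (B B' : Set (E n)) (m : ℕ) : Set S :=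
  {s | (IsCompact (closure B') ∧ closure B' ⊆ χ.target ∧ B ⊆ ψ.target ∧ B.Nonempty ∧ IsOpen B) ∧
    (∀ v ∈ B, s • ψ.symm v ∈ χ.symm '' closure B') ∧
    ∀ j, m ≤ j → EnR q B (r j) (b j) (fun v => χ (s • ψ.symm v))}

theorem isClosed_DsetR [T2Space X] {S : Type} [Group S] [TopologicalSpace S] [MulAction S X]
    [ContinuousSMul S X] (ψ χ : OpenPartialHomeomorph X (E n)) {q : ℝ} (hq : 0 ≤ q)
    (r b : ℕ → ℝ) (B B' : Set (E n))
    (m : ℕ) : IsClosed (DsetR (S := S) ψ χ q r b B B' m) := by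
  by_cases hc : IsCompact (closure B') ∧ closure B' ⊆ χ.target ∧ B ⊆ ψ.target ∧ B.Nonempty ∧
      IsOpen B
  swap
  · have : DsetR (S := S) ψ χ q r b B B' m = ∅ := by
      ext s
      simp only [DsetR, mem_ofPred_eq, mem_empty_iff_false, iff_false, not_and]
      intro h
      exact (hc h).elim
    rw [this]
    exact isClosed_empty
  obtain ⟨hc1, hc2, hc3, hc4⟩ := id hc
  set D1 : Set S := {s | ∀ v ∈ B, s • ψ.symm v ∈ χ.symm '' closure B'} with hD1
  have hcl : IsClosed (χ.symm '' closure B') :=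
    (hc1.image_of_continuousOn (χ.continuousOn_symm.mono hc2)).isClosed
  have hsrc : χ.symm '' closure B' ⊆ χ.source := by
    rintro _ ⟨v, hv, rfl⟩
    exact χ.map_target (hc2 hv)
  have hD1c : IsClosed D1 := by
    have h1 : D1 = ⋂ v ∈ B, {s : S | s • ψ.symm v ∈ χ.symm '' closure B'} := by
      ext s
      simp [D1]
    rw [h1]
    refine isClosed_biInter fun v _ => ?_
    have hcont : Continuous (fun s : S => s • ψ.symm v) := by fun_prop
    exact hcl.preimage hcont
  have hcont : ∀ v ∈ B, ContinuousOn (fun s : S => χ (s • ψ.symm v)) D1 := by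
    intro v hv
    have h1 : Continuous (fun s : S => s • ψ.symm v) := by fun_prop
    exact χ.continuousOn.comp h1.continuousOn fun s hs => hsrc (hs v hv)
  have heq : DsetR (S := S) ψ χ q r b B B' m = D1 ∩ ⋂ (j : ℕ) (_ : m ≤ j) (A : Finset (E n))
      (x : E n → E n) (y : E n → E n)
      (_ : ∀ a ∈ A, a ∈ B ∧ x a ∈ B ∧ y a ∈ B ∧ dist (x a) a ≤ r j ∧ dist (y a) a ≤ r j)
      (_ : ∀ a ∈ A, ∀ a' ∈ A, a ≠ a' → r j ≤ dist a a'),
      (D1 ∩ (fun s : S => ∑ a ∈ A, dist (χ (s • ψ.symm (x a))) (χ (s • ψ.symm (y a))) ^ q) ⁻¹'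
        Iic (b j)) := by
    ext s
    simp only [DsetR, mem_ofPred_eq, mem_inter_iff, mem_iInter, mem_preimage, mem_Iic, EnR, hD1]
    constructor
    · rintro ⟨-, h1, h2⟩
      exact ⟨h1, fun j hj A x y h3 h4 => ⟨h1, h2 j hj A x y h3 h4⟩⟩
    · rintro ⟨h1, h2⟩
      exact ⟨hc, h1, fun j hj A x y h3 h4 => (h2 j hj A x y h3 h4).2⟩
  rw [heq]
  refine hD1c.inter ?_
  refine isClosed_iInter fun j => isClosed_iInter fun _ => isClosed_iInter fun A =>
    isClosed_iInter fun x => isClosed_iInter fun y => isClosed_iInter fun h1 =>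
    isClosed_iInter fun _ => ?_
  refine ContinuousOn.preimage_isClosed_of_isClosed ?_ hD1c isClosed_Iic
  refine continuousOn_finsetSum _ fun a ha => ?_
  exact (continuous_dist.comp_continuousOn
    ((hcont _ (h1 a ha).2.1).prodMk (hcont _ (h1 a ha).2.2.1))).rpow_const fun _ _ => Or.inr hq

theorem exists_DsetR {S : Type} [Group S] [TopologicalSpace S] [MulAction S X]
    [ContinuousSMul S X] (ψ χ : OpenPartialHomeomorph X (E n)) {q : ℝ} {r b : ℕ → ℝ} {s : S}
    {W : Set X}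
    (hWo : IsOpen W) {x0 : X} (hx0 : x0 ∈ W) (hWs : W ⊆ ψ.source) (hsW : ∀ x ∈ W, s • x ∈ χ.source)
    {m : ℕ} (hE : ∀ j, m ≤ j → EnR q (ψ '' W) (r j) (b j) (fun v => χ (s • ψ.symm v))) :
    ∃ B ∈ countableBasis (E n), ∃ B' ∈ countableBasis (E n), ψ x0 ∈ B ∧
      s ∈ DsetR ψ χ q r b B B' m := by
  have hw : χ (s • x0) ∈ χ.target := χ.map_source (hsW x0 hx0)
  obtain ⟨ρ, hρ, hball⟩ := (nhds_basis_closedBall.mem_iff).1 (χ.open_target.mem_nhds hw)
  obtain ⟨B', hB', hwB', hB's⟩ := (isBasis_countableBasis (E n)).mem_nhds_iff.1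
    (ball_mem_nhds (χ (s • x0)) hρ)
  have hclB' : closure B' ⊆ closedBall (χ (s • x0)) ρ :=
    closure_minimal (hB's.trans ball_subset_closedBall) isClosed_closedBall
  have hcomp : IsCompact (closure B') :=
    (isCompact_closedBall _ _).of_isClosed_subset isClosed_closure hclB'
  have hBo' : IsOpen B' := (isBasis_countableBasis (E n)).isOpen hB'
  have hx0s := hWs hx0
  have hv0 : ψ x0 ∈ ψ.target := ψ.map_source hx0s
  have hct : ContinuousAt ψ.symm (ψ x0) := ψ.continuousAt_symm hv0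
  have hleft : ψ.symm (ψ x0) = x0 := ψ.left_inv hx0s
  have h1 : ∀ᶠ v in 𝓝 (ψ x0), v ∈ ψ.target ∧ ψ.symm v ∈ W ∧ χ (s • ψ.symm v) ∈ B' := by
    have e1 : ∀ᶠ v in 𝓝 (ψ x0), v ∈ ψ.target := ψ.open_target.mem_nhds hv0
    have e2 : ∀ᶠ v in 𝓝 (ψ x0), ψ.symm v ∈ W :=
      hct.eventually_mem (by rw [hleft]; exact hWo.mem_nhds hx0)
    have e3 : ContinuousAt (fun v => χ (s • ψ.symm v)) (ψ x0) := by
      have f1 : ContinuousAt (fun v => s • ψ.symm v) (ψ x0) := hct.const_smul s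
      refine ContinuousAt.comp (g := χ) (f := fun v => s • ψ.symm v) ?_ f1
      simp only [hleft]
      exact χ.continuousAt (hsW x0 hx0)
    have e4 : ∀ᶠ v in 𝓝 (ψ x0), χ (s • ψ.symm v) ∈ B' :=
      e3.eventually_mem (by simp only [hleft]; exact hBo'.mem_nhds hwB')
    exact e1.and (e2.and e4)
  obtain ⟨B, hB, hvB, hBs⟩ := (isBasis_countableBasis (E n)).mem_nhds_iff.1 h1
  refine ⟨B, hB, B', hB', hvB, ⟨hcomp, hclB'.trans hball, fun v hv => (hBs hv).1, ⟨_, hvB⟩,
    (isBasis_countableBasis (E n)).isOpen hB⟩, ?_, ?_⟩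
  · intro v hv
    obtain ⟨f1, f2, f3⟩ := hBs hv
    exact ⟨_, subset_closure f3, χ.left_inv (hsW _ f2)⟩
  · intro j hj
    refine enR_mono (fun v hv => ?_) le_rfl (hE j hj)
    obtain ⟨f1, f2, f3⟩ := hBs hv
    exact ⟨_, f2, ψ.right_inv f1⟩

/-- a coset of an open subgroup with uniformly bounded energies of exponent smaller than `n + 2`
gives an open subgroup which acts trivially -/
theorem coset_triv2 (hn : 1 ≤ n) [T2Space X] {ψ χ : OpenPartialHomeomorph X (E n)}
    {S : Type} [Group S] [TopologicalSpace S] [IsTopologicalGroup S] [CompactSpace S] [T2Space S]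
    [TotallyDisconnectedSpace S] [MulAction S X] [ContinuousSMul S X] {q0 : ℝ} (hq0 : 0 < q0)
    (hq2 : q0 < n + 2) {r b : ℕ → ℝ}
    (hr : ∀ j, 0 < r j) (hr0 : Tendsto r atTop (𝓝 0)) {M : ℝ} (hb : ∀ j, b j ≤ M)
    {B B' : Set (E n)}
    {m : ℕ} {s0 : S} {K : Subgroup S} (hKo : IsOpen (K : Set S))
    (hD : ∀ k ∈ K, s0 * k ∈ DsetR ψ χ q0 r b B B' m) {v1 : E n} (hv1 : v1 ∈ B) :
    ∃ K1 : Subgroup S, IsOpen (K1 : Set S) ∧ ∀ᶠ x in 𝓝 (ψ.symm v1), ∀ k ∈ K1, k • x = x := by
  have hKc : IsClosed (K : Set S) := Subgroup.isClosed_of_isOpen K hKo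
  have : CompactSpace K := isCompact_iff_compactSpace.1 hKc.isCompact
  obtain ⟨⟨hc1, hc2, hc3, hc4, hc5⟩, hc6, hc7⟩ := hD 1 K.one_mem
  have hsrc : χ.symm '' closure B' ⊆ χ.source := by
    rintro _ ⟨v, hv, rfl⟩
    exact χ.map_target (hc2 hv)
  rw [mul_one] at hc6
  -- the charts
  let A : Set (OpenPartialHomeomorph X (E n)) := {φ | φ.source ⊆ ψ.source ∩ ψ ⁻¹' B ∧
    ∃ L : ℝ, 0 ≤ L ∧ ∀ a ∈ φ.source, ∀ a' ∈ φ.source,
      dist (φ a) (φ a') ≤ L * dist (χ (s0 • a)) (χ (s0 • a'))}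
  have hA : Stable n A := by
    rintro φ ⟨h1, L, hL0, hL⟩ e ⟨L', hL'⟩
    have hsub : (φ.trans e).source ⊆ φ.source := by
      rw [OpenPartialHomeomorph.trans_source]
      exact inter_subset_left
    refine ⟨hsub.trans h1, |L'| * L, by positivity, fun a ha a' ha' => ?_⟩
    have ha2 := ha
    have ha2' := ha'
    rw [OpenPartialHomeomorph.trans_source] at ha2 ha2'
    have e1 := (hL' (φ a) ha2.2 (φ a') ha2'.2).1
    have e2 := hL a (hsub ha) a' (hsub ha')
    calc dist ((φ.trans e) a) ((φ.trans e) a') ≤ L' * dist (φ a) (φ a') := e1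
      _ ≤ |L'| * dist (φ a) (φ a') := mul_le_mul_of_nonneg_right (le_abs_self _) dist_nonneg
      _ ≤ |L'| * (L * dist (χ (s0 • a)) (χ (s0 • a'))) := by gcongr
      _ = _ := by ring
  have hO : IsOpen (ψ.source ∩ ψ ⁻¹' B) := ψ.isOpen_inter_preimage hc5
  have hx1 : ψ.symm v1 ∈ RegA A := by
    refine ⟨((Homeomorph.smul s0).toOpenPartialHomeomorph.trans χ).restrOpen _ hO, ⟨?_, 1,
      zero_le_one, ?_⟩, ?_⟩
    · rw [OpenPartialHomeomorph.restrOpen_source]
      exact inter_subset_right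
    · intro a _ a' _
      rw [one_mul]
      exact le_of_eq rfl
    · rw [OpenPartialHomeomorph.restrOpen_source, OpenPartialHomeomorph.trans_source]
      refine ⟨⟨mem_univ _, ?_⟩, ψ.map_target (hc3 hv1), ?_⟩
      · show s0 • ψ.symm v1 ∈ χ.source
        exact hsrc (hc6 v1 hv1)
      · show ψ (ψ.symm v1) ∈ B
        rw [ψ.right_inv (hc3 hv1)]
        exact hv1
  have hcrit : ∀ k : K, CritK A k := by
    intro k p hp hgp hcomp φ hφ hsm
    obtain ⟨hφs, L, hL0, hL⟩ := hφ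
    have h34 : closedBall (0 : E n) 3 ⊆ closedBall 0 4 :=
      closedBall_subset_closedBall (by norm_num)
    have ht3 : closedBall (0 : E n) 3 ⊆ φ.target := h34.trans hsm.1
    have hτs : ∀ v ∈ closedBall (0 : E n) 3, φ.symm v ∈ φ.source := fun v hv =>
      φ.map_target (ht3 hv)
    have hτψ : ∀ v ∈ closedBall (0 : E n) 3, ψ.symm (ψ (φ.symm v)) = φ.symm v := fun v hv =>
      ψ.left_inv (hφs (hτs v hv)).1
    have hτc : ContinuousOn (fun v => ψ (φ.symm v)) (closedBall 0 3) := by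
      refine ψ.continuousOn.comp (φ.continuousOn_symm.mono ht3) fun v hv => ?_
      exact (hφs (hτs v hv)).1
    set Q : Set (E n) := (fun v => ψ (φ.symm v)) '' closedBall (0 : E n) 3 with hQdef
    have hQc : IsCompact Q := (isCompact_closedBall _ _).image_of_continuousOn hτc
    have hσc : ContinuousOn (fun u => φ (ψ.symm u)) Q := by
      refine φ.continuousOn.comp (ψ.continuousOn_symm.mono ?_) ?_
      · rintro _ ⟨v, hv, rfl⟩
        exact ψ.map_source (hφs (hτs v hv)).1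
      · rintro _ ⟨v, hv, rfl⟩
        show ψ.symm (ψ (φ.symm v)) ∈ φ.source
        rw [hτψ v hv]
        exact hτs v hv
    have hσ : ∀ v ∈ closedBall (0 : E n) 3, φ (ψ.symm (ψ (φ.symm v))) = v := by
      intro v hv
      rw [hτψ v hv, φ.right_inv (ht3 hv)]
    have hσ4 : ∀ u ∈ Q, φ (ψ.symm u) ∈ closedBall (0 : E n) 4 := by
      rintro _ ⟨v, hv, rfl⟩
      show φ (ψ.symm (ψ (φ.symm v))) ∈ _
      rw [hσ v hv]
      exact h34 hv
    set C : Subgroup K := (Subgroup.zpowers k).topologicalClosure with hC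
    have hCcomp : CompactSpace C := isCompact_iff_compactSpace.1 hcomp
    have hT := locAct_of_small C hsm
    obtain ⟨ω, hω1, hω2, hω3⟩ := unif_osc (K := C) hQc
      (f := fun q u => φ (((q : C) : K) • φ.symm (φ (ψ.symm u)))) (by
        have h1 : ContinuousOn (fun z : C × E n => ((z.1, φ (ψ.symm z.2)) : C × E n))
            (univ ×ˢ Q) :=
          continuousOn_fst.prodMk (hσc.comp continuousOn_snd fun z hz => hz.2)
        exact hT.cont.comp h1 fun z hz => ⟨mem_univ _, hσ4 _ hz.2⟩)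
      (r := fun j => r (j + m)) ((tendsto_add_atTop_iff_nat m).2 hr0)
    refine triv_of_good circ hn hp hgp hcomp hsm (good_circ hp hgp hsm
      (τ := fun v => ψ (φ.symm v)) (σ := fun u => φ (ψ.symm u)) hτc hσc hσ
      (r := fun j => r (j + m)) (b := fun j => ω j ^ ((n : ℝ) + 2 - q0) * (L ^ q0 * M))
      (fun j => hr _) ?_ ?_)
    · have h1 : Tendsto (fun j => ω j ^ ((n : ℝ) + 2 - q0)) atTop (𝓝 0) := by
        have h2 := hω1.rpow_const (p := (n : ℝ) + 2 - q0) (Or.inr (by linarith))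
        rwa [Real.zero_rpow (by linarith)] at h2
      have h3 := h1.mul_const (L ^ q0 * M)
      rwa [zero_mul] at h3
    · intro q hq j
      refine enR_up hq0 hq2.le (hω2 j) (fun x hx y hy hxy => hω3 j ⟨q, hq⟩ x hx y hy hxy) ?_
      have hEq := (hD (q : S) q.2).2.2 (j + m) (by omega)
      have hval : ∀ u ∈ Q,
          u ∈ B ∧ φ.symm (φ (ψ.symm u)) = ψ.symm u ∧ (q : S) • ψ.symm u ∈ φ.source := by
        rintro _ ⟨v, hv, rfl⟩
        have e1 := hτψ v hv
        refine ⟨(hφs (hτs v hv)).2, ?_, ?_⟩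
        · show φ.symm (φ (ψ.symm (ψ (φ.symm v)))) = ψ.symm (ψ (φ.symm v))
          rw [e1, φ.left_inv (hτs v hv)]
        · show (q : S) • ψ.symm (ψ (φ.symm v)) ∈ φ.source
          rw [e1]
          exact (hsm.2 q hq v (h34 hv)).1
      have h1 : EnR q0 Q (r (j + m)) M (fun v => χ ((s0 * (q : S)) • ψ.symm v)) :=
        enR_mono (fun u hu => (hval u hu).1) (hb _) hEq
      refine enR_dom hq0.le hL0 (fun x hx y hy => ?_) h1
      obtain ⟨-, hx2, hx3⟩ := hval _ hx
      obtain ⟨-, hy2, hy3⟩ := hval _ hy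
      show dist (φ (q • φ.symm (φ (ψ.symm x)))) (φ (q • φ.symm (φ (ψ.symm y)))) ≤ _
      rw [hx2, hy2, mul_smul, mul_smul]
      exact hL _ hx3 _ hy3
  obtain ⟨K1, hK1o, hK1t⟩ := locTriv3 hA (H := K) hcrit hx1
  refine ⟨K1.map K.subtype, ?_, ?_⟩
  · rw [Subgroup.coe_map]
    exact hKo.isOpenMap_subtype_val _ hK1o
  · filter_upwards [hK1t] with x hx
    rintro _ ⟨k, hk, rfl⟩
    exact hx k hk

/-- If the closure of the infinite orbits is countable in a chart, every average is good. -/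
theorem good_of_countable (hn : 1 ≤ n) [T2Space X] {H : Type} [Group H] [TopologicalSpace H]
    [IsTopologicalGroup H] [T2Space H] [MulAction H X] [ContinuousSMul H X] {p : ℕ}
    {φ : OpenPartialHomeomorph X (E n)} {g : H}
    (hcomp : IsCompact ((Subgroup.zpowers g).topologicalClosure : Set H))
    (hs : Small φ ((Subgroup.zpowers g).topologicalClosure : Set H))
    (hcount : (φ.source ∩ closure {x : X | InfOrbit g x}).Countable) : GoodCirc φ g p := by
  obtain ⟨A, hA1, hA2, -, -, hA5, hA6, -⟩ := exists_avgE hcomp hs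
  have ht := hs.1
  have h34 : closedBall (0 : E n) 3 ⊆ closedBall 0 4 := closedBall_subset_closedBall (by norm_num)
  refine ⟨A (ContinuousMap.id _), hA1 _, hA6, fun v hv => hA2 _ v hv, fun v hv hgv => ?_, ?_⟩
  · refine hA5 _ _ v (h34 hv) fun k hk => ?_
    show φ (k • φ.symm v) = v
    rw [fix_closure hk hgv, φ.right_inv (ht (h34 hv))]
  · intro y0 hy0
    rw [mem_closure_iff_nhds]
    intro O hO
    have hnt : Nontrivial (E n) := by
      have : Nonempty (Fin n) := ⟨⟨0, hn⟩⟩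
      exact inferInstance
    have hN : ((fun x => A (ContinuousMap.id _) (φ x)) ''
        (φ.source ∩ closure {x : X | InfOrbit g x})).Countable := hcount.image _
    have hd := hN.dense_compl ℝ
    obtain ⟨y, ⟨hyO, hyb⟩, hy⟩ := (mem_closure_iff_nhds.1 (hd y0)) (O ∩ ball (0 : E n) 1)
      (inter_mem hO (isOpen_ball.mem_nhds hy0))
    refine ⟨y, hyO, hyb, Or.inr ⟨fun _ => 1, continuousOn_const, ?_⟩⟩
    rintro v ⟨hv3, hFv, hvc⟩
    exfalso
    apply hy
    refine ⟨φ.symm v, ⟨φ.map_target (ht (h34 hv3)), hvc⟩, ?_⟩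
    show A (ContinuousMap.id _) (φ (φ.symm v)) = y
    rw [φ.right_inv (ht (h34 hv3)), hFv]

/-- the points near which an open subgroup acts trivially -/
def Zt (X S : Type) [TopologicalSpace X] [Group S] [TopologicalSpace S] [MulAction S X] : Set X :=
  {x | ∃ K : Subgroup S, IsOpen (K : Set S) ∧ ∀ᶠ y in 𝓝 x, ∀ k ∈ K, k • y = y}

theorem not_inf {S : Type} [Group S] [TopologicalSpace S] [MulAction S X] {p : ℕ}
    (hp : p.Prime) {g : S} (hg : Tendsto (fun j : ℕ => g ^ p ^ j) atTop (𝓝 1)) {x : X}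
    (hx : x ∈ Zt X S) : x ∉ closure {x : X | InfOrbit g x} := by
  obtain ⟨K, hKo, hK⟩ := hx
  intro hcl
  obtain ⟨j, hj⟩ := (hg.eventually_mem (hKo.mem_nhds K.one_mem)).exists
  obtain ⟨y, hy1, hy2⟩ := mem_closure_iff_nhds.1 hcl _ hK
  exact hy2 (p ^ j) (pow_pos hp.pos j) (hy1 _ hj)

/-- the charts with domain in a given set -/
def chartsIn (n : ℕ) {X : Type} [TopologicalSpace X] (O : Set X) :
    Set (OpenPartialHomeomorph X (E n)) := {φ | φ.source ⊆ O}

theorem stable_chartsIn (O : Set X) : Stable n (chartsIn n O) := by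
  rintro φ h1 e -
  have hsub : (φ.trans e).source ⊆ φ.source := by
    rw [OpenPartialHomeomorph.trans_source]
    exact inter_subset_left
  exact hsub.trans h1

theorem regA_chartsIn {O : Set X} (hO : IsOpen O) {φ : OpenPartialHomeomorph X (E n)} {x : X}
    (hx : x ∈ φ.source) (hxO : x ∈ O) : x ∈ RegA (chartsIn n O) := by
  refine ⟨φ.restrOpen O hO, ?_, ?_⟩
  · show (φ.restrOpen O hO).source ⊆ O
    rw [OpenPartialHomeomorph.restrOpen_source]
    exact inter_subset_right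
  · rw [OpenPartialHomeomorph.restrOpen_source]
    exact ⟨hx, hxO⟩

/-- Newman's theorem for pro-`p` groups which act through finite quotients near each regular
point -/
theorem profinite3 (hn : 1 ≤ n) [T2Space X] {A : Set (OpenPartialHomeomorph X (E n))}
    {H : Type} [Group H] [TopologicalSpace H] [IsTopologicalGroup H] [CompactSpace H] [T2Space H]
    [TotallyDisconnectedSpace H] [MulAction H X] [ContinuousSMul H X]
    (hdense : Dense (RegA A)) (hconn : IsPreconnected (RegA A)) (hloc : RegA A ⊆ Zt X H) :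
    ∃ K : Subgroup H, IsOpen (K : Set H) ∧ ∀ k ∈ K, ∀ x : X, k • x = x := by
  rcases isEmpty_or_nonempty X with hX | hX
  · exact ⟨⊤, isOpen_univ, fun k _ x => (hX.false x).elim⟩
  obtain ⟨x0, hx0⟩ := hdense.nonempty
  obtain ⟨K, hKo, hKt⟩ := hloc hx0
  refine ⟨K, hKo, ?_⟩
  have hKc : IsClosed (K : Set H) := Subgroup.isClosed_of_isOpen K hKo
  have : CompactSpace K := isCompact_iff_compactSpace.1 hKc.isCompact
  have hDc : IsClosed (trivSub K (univ : Set X) : Set K) :=
    isClosed_triv (Subtype.val : K → H) continuous_subtype_val _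
  have hD : trivSub K (univ : Set X) = ⊤ := by
    refine Pool.Agent.Y215.HS.syl K _ hDc ?_
    intro p hp P hPc hPp k hk
    have : CompactSpace P := isCompact_iff_compactSpace.1 hPc.isCompact
    -- the interior of the fixed set of `P`
    let Z : Set X := {x | ∀ᶠ y in 𝓝 x, ∀ q : P, q • y = y}
    have hZo : IsOpen Z := by
      rw [isOpen_iff_mem_nhds]
      intro x hx
      exact eventually_eventually_nhds.2 hx
    have hZx : x0 ∈ Z := by
      filter_upwards [hKt] with y hy q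
      exact hy ((q : K) : H) (q : K).2
    have hsubZ : RegA A ⊆ Z := by
      refine hconn.subset_of_closure_inter_subset hZo ⟨x0, hx0, hZx⟩ ?_
      rintro x ⟨hxZ, hxR⟩
      obtain ⟨K', hK'o, hK't⟩ := hloc hxR
      obtain ⟨O, hO, hOo, hxO⟩ := eventually_nhds_iff.1 hK't
      obtain ⟨φ, hφ, hxφ⟩ := hxR
      have hcrit : ∀ q : P, CritK (chartsIn n O) q := by
        intro q p' hp' hq hcomp φ' hφ' hs
        refine triv_of_good circ hn hp' hq hcomp hs (good_of_countable hn hcomp hs ?_)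
        have hemp : φ'.source ∩ closure {x : X | InfOrbit q x} = ∅ := by
          rw [Set.eq_empty_iff_forall_notMem]
          rintro z ⟨hz1, hz2⟩
          refine not_inf hp' hq (X := X) (S := P) ?_ hz2
          refine ⟨K'.comap (K.subtype.comp P.subtype), ?_, ?_⟩
          · refine hK'o.preimage ?_
            exact continuous_subtype_val.comp continuous_subtype_val
          · filter_upwards [hOo.mem_nhds (hφ' hz1)] with y hy q' hq'
            exact hO y hy _ hq'
        rw [hemp]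
        exact countable_empty
      refine news2 hn (stable_chartsIn O) hp hPp hcrit (regA_chartsIn hOo hxφ hxO) ?_
      intro V hV
      obtain ⟨a, haV, haZ⟩ := mem_closure_iff_nhds.1 hxZ V hV
      exact ⟨a, haV, haZ⟩
    intro x _
    have hcl : IsClosed {x : X | (k : H) • x = x} :=
      isClosed_eq (continuous_const_smul (k : H)) continuous_id
    have h2 : RegA A ⊆ {x : X | (k : H) • x = x} := by
      intro y hy
      exact (hsubZ hy).self_of_nhds ⟨k, hk⟩
    have h3 := hcl.closure_subset_iff.2 h2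
    rw [hdense.closure_eq] at h3
    exact h3 (mem_univ x)
  intro k hk x
  have h1 : (⟨k, hk⟩ : K) ∈ trivSub K (univ : Set X) := by rw [hD]; exact Subgroup.mem_top _
  exact h1 x (mem_univ x)

/-- the admissible kinds of bounds for energies -/
def Kind (n : ℕ) (e : ℝ) (ρ β : ℕ → ℝ) : Prop :=
  (∀ j, 0 < ρ j) ∧ ((e = n ∧ Tendsto (fun j => ρ j * β j) atTop (𝓝 0)) ∨
    (0 < e ∧ e < n + 2 ∧ Tendsto ρ atTop (𝓝 0) ∧ ∃ M : ℝ, ∀ j, β j ≤ M))

/-- a coset with uniformly bounded energies of an admissible kind -/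
theorem coset_triv3 (hn : 1 ≤ n) [T2Space X] {ψ χ : OpenPartialHomeomorph X (E n)}
    {S : Type} [Group S] [TopologicalSpace S] [IsTopologicalGroup S] [CompactSpace S] [T2Space S]
    [TotallyDisconnectedSpace S] [MulAction S X] [ContinuousSMul S X] {e : ℝ} {ρ β : ℕ → ℝ}
    (hk : Kind n e ρ β) {B B' : Set (E n)} {m : ℕ} {s0 : S} {K : Subgroup S}
    (hKo : IsOpen (K : Set S)) (hD : ∀ k ∈ K, s0 * k ∈ DsetR ψ χ e ρ β B B' m) {v1 : E n}
    (hv1 : v1 ∈ B) :
    ∃ K1 : Subgroup S, IsOpen (K1 : Set S) ∧ ∀ᶠ x in 𝓝 (ψ.symm v1), ∀ k ∈ K1, k • x = x := by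
  obtain ⟨hρ, ⟨he, hρβ⟩ | ⟨he0, he2, hρ0, M, hM⟩⟩ := hk
  · subst he
    refine coset_triv hn hρ hρβ hKo (m := m) (B := B) (B' := B') (χ := χ) (s0 := s0) ?_ hv1
    intro k hk
    obtain ⟨h1, h2, h3⟩ := hD k hk
    exact ⟨h1, h2, fun j hj => enR_nat.1 (h3 j hj)⟩
  · exact coset_triv2 hn he0 he2 hρ hρ0 hM hKo hD hv1

/-- Near every regular point an open subgroup acts trivially. -/
theorem loc_all (hn : 1 ≤ n) [T2Space X] {A : Set (OpenPartialHomeomorph X (E n))}
    {S : Type} [Group S] [TopologicalSpace S] [IsTopologicalGroup S] [CompactSpace S] [T2Space S]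
    [TotallyDisconnectedSpace S] [MulAction S X] [ContinuousSMul S X]
    {ι : Type} [Countable ι] {e : ι → ℝ} {ρ β : ι → ℕ → ℝ} (hk : ∀ κ, Kind n (e κ) (ρ κ) (β κ))
    (hreg : ∀ s : S, ∃ N : Set X, N.Countable ∧ ∀ φ ∈ A, ∀ x ∈ φ.source, x ∉ N →
      s • x ∈ φ.source → ∃ (κ : ι) (W : Set X), IsOpen W ∧ x ∈ W ∧ W ⊆ φ.source ∧
        (∀ z ∈ W, s • z ∈ φ.source) ∧ ∃ m : ℕ, ∀ j, m ≤ j →
          EnR (e κ) (φ '' W) (ρ κ j) (β κ j) (fun v => φ (s • φ.symm v))) :
    RegA A ⊆ Zt X S := by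
  classical
  intro x0 hx0
  by_contra hbad
  obtain ⟨φ, hφ, hxφ⟩ := hx0
  -- a neighbourhood and an open subgroup
  obtain ⟨O, H0, hOo, hx0O, hOφ, hH0o, hH0⟩ : ∃ (O : Set X) (H0 : Subgroup S), IsOpen O ∧ x0 ∈ O ∧
      O ⊆ φ.source ∧ IsOpen (H0 : Set S) ∧ ∀ h ∈ H0, ∀ x ∈ O, h • x ∈ φ.source := by
    have hc : ContinuousAt (fun z : S × X => z.1 • z.2) (1, x0) :=
      (continuous_smul (M := S) (X := X)).continuousAt
    have h1 : ∀ᶠ z : S × X in 𝓝 (1, x0), z.1 • z.2 ∈ φ.source := by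
      refine hc.eventually_mem ?_
      show φ.source ∈ 𝓝 ((1 : S) • x0)
      rw [one_smul]
      exact φ.open_source.mem_nhds hxφ
    rw [nhds_prod_eq] at h1
    obtain ⟨U, hU, V, hV, hUV⟩ := mem_prod_iff.1 h1
    obtain ⟨U', hU'U, hU'o, hU'1⟩ := mem_nhds_iff.1 hU
    obtain ⟨V', hV'V, hV'o, hV'x⟩ := mem_nhds_iff.1 hV
    obtain ⟨N, hN⟩ := ProfiniteGrp.exist_openNormalSubgroup_sub_open_nhds_of_one hU'o hU'1
    refine ⟨V' ∩ φ.source, N.toSubgroup, hV'o.inter φ.open_source, ⟨hV'x, hxφ⟩,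
      inter_subset_right, N.isOpen', fun h hh x hx => ?_⟩
    exact hUV (mk_mem_prod (hU'U (hN hh)) (hV'V hx.1))
  have hH0c : IsClosed (H0 : Set S) := Subgroup.isClosed_of_isOpen H0 hH0o
  have : CompactSpace H0 := isCompact_iff_compactSpace.1 hH0c.isCompact
  by_cases hcount : ((Zt X S)ᶜ ∩ O).Countable
  · -- the countable case
    apply hbad
    have hcrit : ∀ h : S, CritK (chartsIn n O) h := by
      intro h p hp hg hcomp φ' hφ' hs
      refine triv_of_good circ hn hp hg hcomp hs (good_of_countable hn hcomp hs ?_)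
      refine hcount.mono ?_
      rintro z ⟨hz1, hz2⟩
      exact ⟨fun hz => not_inf hp hg hz hz2, hφ' hz1⟩
    obtain ⟨K, hKo, hK⟩ := locTriv3 (stable_chartsIn O) hcrit (regA_chartsIn hOo hxφ hx0O)
    exact ⟨K, hKo, hK⟩
  · -- the uncountable case: Baire
    have hcb : (countableBasis (E n)).Countable := countable_countableBasis (E n)
    have : Countable (countableBasis (E n)) := hcb.to_subtype
    let f : (countableBasis (E n)) × (countableBasis (E n)) × ι × ℕ → Set H0 := fun q =>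
      {s | (∃ x ∈ (Zt X S)ᶜ ∩ O, φ x ∈ (q.1 : Set (E n))) ∧
        s ∈ DsetR (S := H0) φ φ (e q.2.2.1) (ρ q.2.2.1) (β q.2.2.1) q.1 q.2.1 q.2.2.2}
    have he : ∀ κ, 0 ≤ e κ := by
      intro κ
      obtain ⟨-, ⟨h, -⟩ | ⟨h, -⟩⟩ := hk κ
      · rw [h]
        positivity
      · exact h.le
    have hfc : ∀ q, IsClosed (f q) := by
      intro q
      by_cases hq : ∃ x ∈ (Zt X S)ᶜ ∩ O, φ x ∈ (q.1 : Set (E n))
      · have h1 : f q = DsetR (S := H0) φ φ (e q.2.2.1) (ρ q.2.2.1) (β q.2.2.1) q.1 q.2.1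
            q.2.2.2 := by
          ext s
          simp only [f, mem_ofPred_eq, hq, true_and]
        rw [h1]
        exact isClosed_DsetR _ _ (he _) _ _ _ _ _
      · have h1 : f q = ∅ := by
          ext s
          simp only [f, mem_ofPred_eq, hq, false_and, mem_empty_iff_false]
        rw [h1]
        exact isClosed_empty
    have hU : ⋃ q, f q = univ := by
      ext s
      simp only [mem_iUnion, mem_univ, iff_true]
      obtain ⟨N, hN, hs⟩ := hreg (s : S)
      obtain ⟨x, ⟨hx1, hx2⟩, hxN⟩ : ∃ x, x ∈ (Zt X S)ᶜ ∩ O ∧ x ∉ N := by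
        by_contra hall
        push Not at hall
        exact hcount (hN.mono hall)
      obtain ⟨κ, W, hWo, hxW, hWs, hsW, m, hE⟩ := hs φ hφ x (hOφ hx2) hxN (hH0 _ s.2 x hx2)
      obtain ⟨B, hB, B', hB', hxB, h⟩ := exists_DsetR (S := H0) (s := s) φ φ hWo hxW hWs hsW hE
      exact ⟨(⟨B, hB⟩, ⟨B', hB'⟩, κ, m), ⟨x, ⟨hx1, hx2⟩, hxB⟩, h⟩
    obtain ⟨⟨⟨B, hB⟩, ⟨B', hB'⟩, κ, m⟩, s0, hs0⟩ :=
      nonempty_interior_of_iUnion_of_closed (f := f) hfc hU
    have hopen : IsOpen ((fun k : H0 => s0 * k) ⁻¹'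
        (interior (f (⟨B, hB⟩, ⟨B', hB'⟩, κ, m)))) :=
      isOpen_interior.preimage (continuous_const.mul continuous_id)
    obtain ⟨N, hN⟩ := ProfiniteGrp.exist_openNormalSubgroup_sub_open_nhds_of_one hopen (by
      rw [mem_preimage, mul_one]; exact hs0)
    have hD : ∀ k ∈ N.toSubgroup, s0 * k ∈ f (⟨B, hB⟩, ⟨B', hB'⟩, κ, m) := fun k hk =>
      interior_subset (hN hk)
    obtain ⟨x, ⟨hx1, hx2⟩, hxB⟩ := (hD 1 N.toSubgroup.one_mem).1
    obtain ⟨K1, hK1o, hK1⟩ := coset_triv3 hn (hk κ) (K := N.toSubgroup) N.isOpen'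
      (fun k hk => (hD k hk).2) hxB
    apply hx1
    refine ⟨K1.map H0.subtype, ?_, ?_⟩
    · rw [Subgroup.coe_map]
      exact hH0o.isOpenMap_subtype_val _ hK1o
    · rw [φ.left_inv (hOφ hx2)] at hK1
      filter_upwards [hK1] with y hy
      rintro _ ⟨k, hk, rfl⟩
      exact hy k hk

/-- the theorem for locally compact groups -/
theorem lie_kinds (hn : 1 ≤ n) [T2Space X] {A : Set (OpenPartialHomeomorph X (E n))}
    (hdense : Dense (RegA A)) (hconn : IsPreconnected (RegA A))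
    {G : Type} [Group G] [TopologicalSpace G] [IsTopologicalGroup G] [LocallyCompactSpace G]
    [MulAction G X] [ContinuousSMul G X] [FaithfulSMul G X] {V : Set G} (hV : V ∈ 𝓝 (1 : G))
    {ι : Type} [Countable ι] {e : ι → ℝ} {ρ β : ι → ℕ → ℝ} (hk : ∀ κ, Kind n (e κ) (ρ κ) (β κ))
    (hreg : ∀ g, SmallPow V g → ∃ N : Set X, N.Countable ∧ ∀ φ ∈ A, ∀ x ∈ φ.source, x ∉ N →
      g • x ∈ φ.source → ∃ (κ : ι) (W : Set X), IsOpen W ∧ x ∈ W ∧ W ⊆ φ.source ∧
        (∀ z ∈ W, g • z ∈ φ.source) ∧ ∃ m : ℕ, ∀ j, m ≤ j →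
          EnR (e κ) (φ '' W) (ρ κ j) (β κ j) (fun v => φ (g • φ.symm v))) :
    IsLie G := by
  have hT2 : T2Space G := by
    refine ⟨fun g h hgh => ?_⟩
    obtain ⟨x, hx⟩ : ∃ x : X, g • x ≠ h • x := by
      by_contra hall
      push Not at hall
      exact hgh (eq_of_smul_eq_smul hall)
    obtain ⟨u, v, hu, hv, hgu, hhv, huv⟩ := t2_separation hx
    have hc : Continuous (fun g : G => g • x) := by fun_prop
    exact ⟨_, _, hu.preimage hc, hv.preimage hc, hgu, hhv, huv.preimage _⟩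
  have hN : NSS G := by
    refine nss_of_Z V hV ?_
    intro S _ _ _ _ _ _ i hi hinj hiV
    let _ : MulAction S X := MulAction.compHom X i
    have _ : ContinuousSMul S X := ⟨by
      have h : Continuous (fun q : S × X => i q.1 • q.2) := by fun_prop
      exact h⟩
    obtain ⟨K, hKo, hKt⟩ := profinite3 (H := S) hn hdense hconn
      (loc_all hn hk fun s => hreg (i s) (smallPow_of_hom i hi hiV s))
    have hbot : K = ⊥ := by
      rw [eq_bot_iff]
      intro k hk
      rw [Subgroup.mem_bot]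
      apply hinj
      refine eq_of_smul_eq_smul (α := X) fun x => ?_
      rw [map_one, one_smul]
      exact hKt k hk x
    rw [hbot] at hKo
    refine discreteTopology_of_isOpen_singleton_one ?_
    convert hKo using 1
    ext x
    simp
  obtain ⟨E, i1, i2, i3, ⟨C⟩⟩ := Pool.Agent.Y328.HS.lga G hN
  let _ := i1
  let _ := i2
  have _ := i3
  exact Pool.Agent.Y286.HS.lgb G E C

end

end Pool.Agent.U498.HSF
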