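import Pool.Agent.U498.HSF.Avg
import Pool.Agent.N512.CC.E3

/-!
# Eigenfunctions on almost all fibres for maps with small energies of exponent `n + 2` (helper498)
-/

set_option autoImplicit false
set_option linter.unusedSectionVars false

open MeasureTheory Set Metric Filter Topology TopologicalSpace
open scoped ENNReal NNReal

namespace Pool.Agent.U498.HSF

open Pool.Agent.Y485.HS Pool.Agent.Y489.SP Pool.Agent.Y475.HS Pool.Agent.R775.HS
  Pool.Agent.R775.HC Pool.Agent.N512.HS Pool.Agent.N512.CC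

section
variable {n : ℕ} {X : Type} [TopologicalSpace X] {S : Type} [Group S] [TopologicalSpace S]
  [IsTopologicalGroup S] [CompactSpace S] [T2Space S] [TotallyDisconnectedSpace S]
  [MulAction S X] [ContinuousSMul S X]

/-- small energies of exponent `n + 2` give eigenfunctions on almost all fibres of the average -/
theorem good_circ [T2Space X] {p : ℕ} (hp : p.Prime) {g : S}
    (hg : Tendsto (fun j : ℕ => g ^ p ^ j) atTop (𝓝 1)) {φ : OpenPartialHomeomorph X (E n)}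
    (hs : Small φ ((Subgroup.zpowers g).topologicalClosure : Set S)) {τ σ : E n → E n}
    (hτ : ContinuousOn τ (closedBall 0 3)) (hσc : ContinuousOn σ (τ '' closedBall 0 3))
    (hσ : ∀ v ∈ closedBall (0 : E n) 3, σ (τ v) = v) {r b : ℕ → ℝ} (hr : ∀ j, 0 < r j)
    (hb : Tendsto b atTop (𝓝 0))
    (hE : ∀ q ∈ (Subgroup.zpowers g).topologicalClosure, ∀ j,
      EnR ((n : ℝ) + 2) (τ '' closedBall 0 3) (r j) (b j) (fun u => φ (q • φ.symm (σ u)))) :
    GoodCirc φ g p := by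
  classical
  have hcomp : IsCompact ((Subgroup.zpowers g).topologicalClosure : Set S) :=
    (Subgroup.isClosed_topologicalClosure _).isCompact
  have hn2 : (0 : ℝ) ≤ (n : ℝ) + 2 := by positivity
  have hn1 : (1 : ℝ) ≤ (n : ℝ) + 2 := by
    have : (0 : ℝ) ≤ (n : ℝ) := by positivity
    linarith
  obtain ⟨A, hA1, hA2, -, -, hA5, hA6, hA7⟩ := exists_avgE hcomp hs
  obtain ⟨B, hB1, hB2, -, -, -, hB6, hB7⟩ := exists_twE hp.pos hcomp hs
  obtain ⟨e, he⟩ := exists_surjective_nat (ℕ × ℚ)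
  have ht := hs.1
  have hsm := hs.2
  have hgmem : g ∈ (Subgroup.zpowers g).topologicalClosure :=
    Subgroup.le_topologicalClosure _ (Subgroup.mem_zpowers g)
  have h34 : closedBall (0 : E n) 3 ⊆ closedBall 0 4 := closedBall_subset_closedBall (by norm_num)
  set F : E n → E n := A (ContinuousMap.id _) with hF
  set Q : Set (E n) := τ '' closedBall 0 3 with hQdef
  have hQ : IsCompact Q := (isCompact_closedBall 0 3).image_of_continuousOn hτ
  have hσ3 : ∀ u ∈ Q, σ u ∈ closedBall (0 : E n) 3 := by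
    rintro _ ⟨v, hv, rfl⟩
    rw [hσ v hv]
    exact hv
  have hσ4 : ∀ u ∈ Q, σ u ∈ closedBall (0 : E n) 4 := fun u hu => h34 (hσ3 u hu)
  set b0 : ℕ → E n → ℂ := fun i => B (tent (denseSeq (E n) (e i).1) ((e i).2 : ℝ)) with hb0
  have hw : ∀ i, ContinuousOn (fun u => b0 i (σ u)) Q := fun i => (hB1 _).comp hσc hσ4
  have hf : ContinuousOn (fun u => F (σ u)) Q := (hA1 _).comp hσc hσ4
  have hFf : Fine ((n : ℝ) + 2) Q r (fun u => F (σ u)) :=
    ⟨b, hb, fun j => hA7 _ hn1 Q σ (r j) (b j) hσ4 fun k hk => hE k hk j⟩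
  have hwf : ∀ i, Fine ((n : ℝ) + 2) Q r (fun u => b0 i (σ u)) := by
    intro i
    refine ⟨fun j => 1 ^ ((n : ℝ) + 2) * b j, by simpa using hb, fun j => ?_⟩
    refine hB7 _ _ hn1 Q σ (r j) _ hσ4 fun k hk => ?_
    refine enR_dom hn2 zero_le_one (fun x _ y _ => ?_) (hE k hk j)
    rw [one_mul]
    exact tent_lip _ _ _ _
  obtain ⟨t, hae⟩ := pick_seq (f := fun u => F (σ u)) (w := fun i u => b0 i (σ u)) hQ hf hw hr
    hFf hwf
  have hFfix : ∀ v ∈ closedBall (0 : E n) 4, g • φ.symm v = φ.symm v → F v = v := by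
    intro v hv hgv
    refine hA5 _ _ v hv fun k hk => ?_
    show φ (k • φ.symm v) = v
    rw [fix_closure hk hgv, φ.right_inv (ht hv)]
  refine ⟨F, hA1 _, hA6, fun v hv => hA2 _ v hv, fun v hv hgv => hFfix v (h34 hv) hgv, ?_⟩
  intro y0 hy0
  rw [mem_closure_iff_nhds]
  intro O hO
  have hd := Measure.dense_of_ae hae
  obtain ⟨y, ⟨hyO, hyb⟩, hy⟩ := (mem_closure_iff_nhds.1 (hd y0)) (O ∩ ball (0 : E n) 1)
    (inter_mem hO (isOpen_ball.mem_nhds hy0))
  refine ⟨y, hyO, hyb, ?_⟩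
  by_cases hgy : g • φ.symm y = φ.symm y
  · exact Or.inl hgy
  right
  have hyn : ‖y‖ < 1 := by simpa using hyb
  set Φ : Set (E n) := {v | v ∈ closedBall (0 : E n) 3 ∧ F v = y} with hΦ
  have hΦc : IsCompact Φ := by
    have h1 : Φ = closedBall (0 : E n) 3 ∩ F ⁻¹' {y} := by
      ext v
      simp [Φ]
    rw [h1]
    exact (isCompact_closedBall (0 : E n) 3).of_isClosed_subset
      (((hA1 _).mono h34).preimage_isClosed_of_isClosed isClosed_closedBall isClosed_singleton)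
      inter_subset_left
  have hΦn : ∀ v ∈ Φ, ‖v‖ < 5 / 4 := by
    rintro v ⟨h1, h2⟩
    have h3 := hA6 v (h34 h1)
    have h3' : dist (F v) v < 1 / 4 := h3
    rw [h2, dist_eq_norm] at h3'
    calc ‖v‖ = ‖y - (y - v)‖ := by congr 1; abel
      _ ≤ ‖y‖ + ‖y - v‖ := norm_sub_le _ _
      _ < 5 / 4 := by linarith
  have hex : ∀ v ∈ Φ, ∃ i, b0 i v ≠ 0 := by
    intro v hv
    have hne : g • φ.symm v ≠ φ.symm v := by
      intro h1
      have h2 := hFfix v (h34 hv.1) h1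
      rw [hv.2] at h2
      rw [← h2] at h1
      exact hgy h1
    obtain ⟨a, ρ, h1⟩ := exists_tent hp hg hs hB6 (h34 hv.1) hne
    obtain ⟨i, hi⟩ := he (a, ρ)
    refine ⟨i, ?_⟩
    show B (tent (denseSeq (E n) (e i).1) ((e i).2 : ℝ)) v ≠ 0
    rw [hi]
    exact h1
  obtain ⟨m, hm⟩ : ∃ m : ℕ, ∀ v ∈ Φ, ∃ i < m, b0 i v ≠ 0 := by
    refine hΦc.induction_on (p := fun s => ∃ m : ℕ, ∀ v ∈ s, ∃ i < m, b0 i v ≠ 0) ?_ ?_ ?_ ?_
    · exact ⟨0, fun v hv => absurd hv (notMem_empty v)⟩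
    · rintro s s' hss ⟨m, hm⟩
      exact ⟨m, fun v hv => hm v (hss hv)⟩
    · rintro s s' ⟨m, hm⟩ ⟨m', hm'⟩
      refine ⟨max m m', fun v hv => ?_⟩
      rcases hv with hv | hv
      · obtain ⟨i, hi, h⟩ := hm v hv
        exact ⟨i, lt_max_of_lt_left hi, h⟩
      · obtain ⟨i, hi, h⟩ := hm' v hv
        exact ⟨i, lt_max_of_lt_right hi, h⟩
    · intro v hv
      obtain ⟨i, hi⟩ := hex v hv
      have hc : ContinuousWithinAt (b0 i) Φ v :=
        (hB1 _).mono (fun v hv => h34 hv.1) v hv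
      exact ⟨_, hc.eventually_ne hi, i + 1, fun v' hv' => ⟨i, Nat.lt_succ_self i, hv'⟩⟩
  refine ⟨fun v => ∑ i ∈ Finset.range m, t i * b0 i (σ (τ v)), ?_, ?_⟩
  · refine continuousOn_finsetSum _ fun i _ => continuousOn_const.mul ?_
    refine (hw i).comp (hτ.mono fun v hv => hv.1) fun v hv => mem_image_of_mem τ hv.1
  · rintro v ⟨hv3, hFv, -⟩
    have hvΦ : v ∈ Φ := ⟨hv3, hFv⟩
    have hvn := hΦn v hvΦ
    refine ⟨?_, ?_⟩
    · refine hy m (τ v) (mem_image_of_mem τ hv3) ?_ ?_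
      · show F (σ (τ v)) = y
        rw [hσ v hv3, hFv]
      · obtain ⟨i, hi, h⟩ := hm v hvΦ
        refine ⟨i, hi, ?_⟩
        show b0 i (σ (τ v)) ≠ 0
        rw [hσ v hv3]
        exact h
    · have hgv : φ (g • φ.symm v) ∈ closedBall (0 : E n) 3 := by
        have h1 := (hsm g hgmem v (h34 hv3)).2
        rw [dist_eq_norm] at h1
        simp only [mem_closedBall, dist_zero_right]
        calc ‖φ (g • φ.symm v)‖ = ‖(φ (g • φ.symm v) - v) + v‖ := by congr 1; abel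
          _ ≤ ‖φ (g • φ.symm v) - v‖ + ‖v‖ := norm_add_le _ _
          _ ≤ 3 := by linarith
      show ∑ i ∈ Finset.range m, t i * b0 i (σ (τ (φ (g • φ.symm v)))) = _ *
        ∑ i ∈ Finset.range m, t i * b0 i (σ (τ v))
      rw [hσ _ hgv, hσ v hv3, Finset.mul_sum]
      refine Finset.sum_congr rfl fun i _ => ?_
      have h2 : b0 i (φ (g • φ.symm v)) =
          Complex.exp (2 * Real.pi * Complex.I / p) * b0 i v := hB2 _ v hv3
      rw [h2]
      ring

end

end Pool.Agent.U498.HSF
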