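import Pool.Agent.U498.HSF.Frac

/-!
# The Hilbert-Smith conjecture for homeomorphisms of finite energy of exponent less than `n + 2`
(helper498)
-/

set_option autoImplicit false
set_option linter.unusedSectionVars false

open MeasureTheory Set Metric Filter Topology TopologicalSpace
open scoped ENNReal NNReal

namespace Pool.Agent.U498.HSF

open Pool.Agent.Y485.HS Pool.Agent.Y489.SP Pool.Agent.Y475.HS Pool.Agent.R775.HS
  Pool.Agent.R775.HC Pool.Agent.N512.HS Pool.Agent.N512.CC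

/-- the exponents of the kinds -/
noncomputable def eK (n : ℕ) : Option (ℕ × ℕ) → ℝ
  | none => n
  | some c => n + 2 - 1 / ((c.1 : ℝ) + 1)

/-- the scales of the kinds -/
noncomputable def rK (r : ℕ → ℝ) : Option (ℕ × ℕ) → ℕ → ℝ
  | none => fun j => (1 / 2) ^ j
  | some _ => r

/-- the bounds of the kinds -/
noncomputable def bK : Option (ℕ × ℕ) → ℕ → ℝ
  | none => fun j => 2 ^ j / (j + 1)
  | some c => fun _ => c.2

theorem kinds {n : ℕ} (hn : 1 ≤ n) {r : ℕ → ℝ} (hr : ∀ j, 0 < r j) (hr0 : Tendsto r atTop (𝓝 0))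
    (κ : Option (ℕ × ℕ)) : Kind n (eK n κ) (rK r κ) (bK κ) := by
  have hn1 : (1 : ℝ) ≤ n := by exact_mod_cast hn
  cases κ with
  | none =>
    refine ⟨fun j => by show (0 : ℝ) < (1 / 2) ^ j; positivity, Or.inl ⟨rfl, ?_⟩⟩
    have h1 : Tendsto (fun j : ℕ => 1 / ((j : ℝ) + 1)) atTop (𝓝 0) :=
      tendsto_one_div_add_atTop_nhds_zero_nat
    refine h1.congr fun j => ?_
    show 1 / ((j : ℝ) + 1) = (1 / 2) ^ j * (2 ^ j / (j + 1))
    have h2 : ((1 : ℝ) / 2) ^ j * 2 ^ j = 1 := by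
      rw [← mul_pow]
      norm_num
    rw [← mul_div_assoc, h2]
  | some c =>
    have h1 : (0 : ℝ) < 1 / ((c.1 : ℝ) + 1) := by positivity
    have h2 : 1 / ((c.1 : ℝ) + 1) ≤ 1 := by
      rw [div_le_one (by positivity)]
      have : (0 : ℝ) ≤ c.1 := by positivity
      linarith
    refine ⟨hr, Or.inr ⟨?_, ?_, hr0, c.2, fun j => le_rfl⟩⟩
    · show (0 : ℝ) < n + 2 - 1 / ((c.1 : ℝ) + 1)
      linarith
    · show (n : ℝ) + 2 - 1 / ((c.1 : ℝ) + 1) < n + 2
      linarith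

section
variable {n : ℕ} {X : Type} [TopologicalSpace X]

/-- bounded energies of an exponent less than `n + 2` belong to a kind -/
theorem kind_of_bdd {G : Type} [Group G] [TopologicalSpace G] [MulAction G X]
    [ContinuousSMul G X] (φ : OpenPartialHomeomorph X (E n)) (g : G) {x : X} (hx : x ∈ φ.source)
    {O : Set (E n)} (hO : IsOpen O) (hxO : φ x ∈ O) (hOt : O ⊆ φ.target)
    (hOg : ∀ v ∈ O, g • φ.symm v ∈ φ.source) {r : ℕ → ℝ} {q C : ℝ} (hq : 0 < q) (hq2 : q < n + 2)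
    {m : ℕ} (hE : ∀ j, m ≤ j → EnR q O (r j) C (fun v => φ (g • φ.symm v))) :
    ∃ (κ : Option (ℕ × ℕ)) (W : Set X), IsOpen W ∧ x ∈ W ∧ W ⊆ φ.source ∧
      (∀ z ∈ W, g • z ∈ φ.source) ∧ ∃ m : ℕ, ∀ j, m ≤ j →
        EnR (eK n κ) (φ '' W) (rK r κ j) (bK κ j) (fun v => φ (g • φ.symm v)) := by
  obtain ⟨k, hk⟩ := exists_nat_one_div_lt (show (0 : ℝ) < n + 2 - q by linarith)
  obtain ⟨M, hM⟩ := exists_nat_ge C
  set f : E n → E n := fun v => φ (g • φ.symm v) with hf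
  have hfc : ContinuousAt f (φ x) := by
    have h1 : ContinuousAt φ.symm (φ x) := φ.continuousAt_symm (φ.map_source hx)
    refine ContinuousAt.comp (g := φ) (f := fun v => g • φ.symm v) ?_ (h1.const_smul g)
    exact φ.continuousAt (hOg _ hxO)
  obtain ⟨δ, hδ, hball⟩ := Metric.mem_nhds_iff.1
    (inter_mem (hO.mem_nhds hxO) (hfc (ball_mem_nhds (f (φ x)) (half_pos one_pos))))
  have hle : q ≤ n + 2 - 1 / ((k : ℝ) + 1) := by linarith
  refine ⟨some (k, M), φ.source ∩ φ ⁻¹' ball (φ x) δ, φ.isOpen_inter_preimage isOpen_ball,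
    ⟨hx, mem_ball_self hδ⟩, inter_subset_left, ?_, m, ?_⟩
  · rintro z ⟨hz1, hz2⟩
    have h1 := hOg _ (hball hz2).1
    rwa [φ.left_inv hz1] at h1
  · intro j hj
    show EnR (n + 2 - 1 / ((k : ℝ) + 1)) _ (r j) (M : ℝ) f
    have hsub : φ '' (φ.source ∩ φ ⁻¹' ball (φ x) δ) ⊆ ball (φ x) δ := by
      rintro _ ⟨z, hz, rfl⟩
      exact hz.2
    have h1 := enR_up hq hle zero_le_one (M := C) (r := r j) (f := f)
      (Q := φ '' (φ.source ∩ φ ⁻¹' ball (φ x) δ)) (fun u hu w hw _ => ?_)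
      (enR_mono (fun u hu => (hball (hsub hu)).1) le_rfl (hE j hj))
    · rw [Real.one_rpow, one_mul] at h1
      exact enR_mono subset_rfl hM h1
    · have h2 := (hball (hsub hu)).2
      have h3 := (hball (hsub hw)).2
      rw [mem_preimage, mem_ball] at h2 h3
      have := dist_triangle_right (f u) (f w) (f (φ x))
      linarith

/-- maps of fractional Sobolev class -/
theorem kind_of_frac {G : Type} [Group G] [TopologicalSpace G] [MulAction G X]
    [ContinuousSMul G X] (φ : OpenPartialHomeomorph X (E n)) (g : G) {x : X} (hx : x ∈ φ.source)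
    {O : Set (E n)} (hO : IsOpen O) (hxO : φ x ∈ O) (hOt : O ⊆ φ.target)
    (hOg : ∀ v ∈ O, g • φ.symm v ∈ φ.source) {r : ℕ → ℝ} (hr : ∀ j, 0 < r j)
    (hr0 : Tendsto r atTop (𝓝 0)) {s q : ℝ} (hs : 0 < s) (hq : 0 < q)
    (hsq : (n : ℝ) < s * q) (hsn : (n : ℝ) < s * (n + 2))
    (hF : FracS s q O (fun v => φ (g • φ.symm v))) :
    ∃ (κ : Option (ℕ × ℕ)) (W : Set X), IsOpen W ∧ x ∈ W ∧ W ⊆ φ.source ∧
      (∀ z ∈ W, g • z ∈ φ.source) ∧ ∃ m : ℕ, ∀ j, m ≤ j →
        EnR (eK n κ) (φ '' W) (rK r κ j) (bK κ j) (fun v => φ (g • φ.symm v)) := by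
  have hn0 : (0 : ℝ) ≤ n := by positivity
  obtain ⟨q', hq'0, hq'q, hq'n, hsq'⟩ : ∃ q' : ℝ, 0 < q' ∧ q' ≤ q ∧ q' < n + 2 ∧
      (n : ℝ) < s * q' := by
    have h1 : (n : ℝ) / s < min q (n + 2) := by
      rw [lt_min_iff, div_lt_iff₀ hs, div_lt_iff₀ hs]
      exact ⟨by linarith, by linarith⟩
    obtain ⟨q', h2, h3⟩ := exists_between h1
    rw [lt_min_iff] at h3
    have h4 : 0 ≤ (n : ℝ) / s := by positivity
    rw [div_lt_iff₀ hs] at h2
    exact ⟨q', by
      by_contra hcon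
      push Not at hcon
      nlinarith, h3.1.le, h3.2, by linarith⟩
  obtain ⟨δ, hδ, hball⟩ := Metric.isOpen_iff.1 hO (φ x) hxO
  set ρ : ℝ := δ / 4 with hρ
  have hρ0 : 0 < ρ := by positivity
  have hsub : closedBall (φ x) (3 * ρ) ⊆ O :=
    (closedBall_subset_ball (by rw [hρ]; linarith)).trans hball
  have hfc : ContinuousOn (fun v => φ (g • φ.symm v)) O :=
    φ.continuousOn.comp ((φ.continuousOn_symm.mono hOt).const_smul g) hOg
  obtain ⟨C, hC⟩ := frac_ener hs hq'0 hsq' (hfc.mono hsub)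
    (fracS_red hq'0 hq'q hsub measure_closedBall_lt_top hF)
  obtain ⟨m, hm⟩ := eventually_atTop.1 (hr0.eventually (gt_mem_nhds (lt_min hρ0 one_pos)))
  refine kind_of_bdd φ g hx (O := ball (φ x) ρ) isOpen_ball (mem_ball_self hρ0) ?_ ?_ hq'0 hq'n
    (C := C) (m := m) ?_
  · exact ((ball_subset_closedBall.trans (closedBall_subset_closedBall (by linarith))).trans
      hsub).trans hOt
  · intro v hv
    exact hOg v (hsub (closedBall_subset_closedBall (by linarith) (ball_subset_closedBall hv)))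
  · intro j hj
    have h1 := hm j hj
    rw [lt_min_iff] at h1
    exact enR_mono ball_subset_closedBall le_rfl (hC (r j) (hr j) h1.1.le h1.2.le)

/-- homeomorphisms of class `W^{1,q}`, `q > n - 1` -/
theorem kind_of_sob (hn : 2 ≤ n) {G : Type} [Group G] [TopologicalSpace G] [MulAction G X]
    [ContinuousSMul G X] (φ : OpenPartialHomeomorph X (E n)) (g : G) {x : X} (hx : x ∈ φ.source)
    {O : Set (E n)} (hO : IsOpen O) (hxO : φ x ∈ O) (hOt : O ⊆ φ.target)
    (hOg : ∀ v ∈ O, g • φ.symm v ∈ φ.source) {r : ℕ → ℝ} {q : ℝ} (hq : (n : ℝ) - 1 < q)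
    (hF : SobO q O (fun v => φ (g • φ.symm v))) :
    ∃ (κ : Option (ℕ × ℕ)) (W : Set X), IsOpen W ∧ x ∈ W ∧ W ⊆ φ.source ∧
      (∀ z ∈ W, g • z ∈ φ.source) ∧ ∃ m : ℕ, ∀ j, m ≤ j →
        EnR (eK n κ) (φ '' W) (rK r κ j) (bK κ j) (fun v => φ (g • φ.symm v)) := by
  obtain ⟨h, hm, hH, hI⟩ := hF
  obtain ⟨R, hR, hball⟩ := Metric.isOpen_iff.1 hO (φ x) hxO
  set z0 : E n := φ x with hz0
  set ρ : ℝ := R / 3 with hρdef
  have hρ : 0 < ρ := by positivity
  let u : OpenPartialHomeomorph (E n) (E n) :=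
    (φ.symm.trans ((Homeomorph.smul g).toOpenPartialHomeomorph.trans φ)).restrOpen (ball z0 R)
      isOpen_ball
  have husrc : u.source = ball z0 R := by
    show (φ.symm.trans ((Homeomorph.smul g).toOpenPartialHomeomorph.trans φ)).source ∩ ball z0 R =
      ball z0 R
    refine inter_eq_right.2 fun v hv => ?_
    rw [OpenPartialHomeomorph.trans_source]
    refine ⟨hOt (hball hv), ?_⟩
    rw [mem_preimage, OpenPartialHomeomorph.trans_source]
    exact ⟨mem_univ _, hOg _ (hball hv)⟩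
  have hHaj : Haj u.source u h := by
    intro v hv w hw
    rw [husrc] at hv hw
    exact hH v (hball hv) w (hball hw)
  have hfin : ∫⁻ x in u.source, h x ^ q < ∞ := by
    rw [husrc]
    exact lt_of_le_of_lt (lintegral_mono_set hball) hI
  obtain ⟨m, hm'⟩ := sob_ener hn u hq hm hHaj hfin hρ (z0 := z0) (by
    rw [husrc]
    exact closedBall_subset_ball (by rw [hρdef]; linarith))
  refine ⟨none, φ.source ∩ φ ⁻¹' ball z0 ρ, φ.isOpen_inter_preimage isOpen_ball,
    ⟨hx, mem_ball_self hρ⟩, inter_subset_left, ?_, m, fun j hj => ?_⟩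
  · rintro z ⟨hz1, hz2⟩
    have h1 := hOg _ (hball (ball_subset_ball (by rw [hρdef]; linarith) hz2))
    rwa [φ.left_inv hz1] at h1
  · show EnR (n : ℝ) _ ((1 / 2) ^ j) (2 ^ j / (j + 1)) _
    rw [enR_nat]
    refine ener_mono ?_ le_rfl (hm' j hj)
    rintro _ ⟨z, hz, rfl⟩
    exact ball_subset_closedBall hz.2

end

end Pool.Agent.U498.HSF
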